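import Pool.Agent.Run7.h876.EN.FF

/-!
# The values of the last coefficient for which a polynomial is not separable
-/

set_option autoImplicit false
set_option linter.unusedSectionVars false

namespace Run7.h876.EN

open Finset Polynomial

section
variable {k : Type} [Field k]

theorem gR_monic (R : Finset k) : (mR R).Monic := monic_prod_of_monic _ _ fun x _ => monic_X_sub_C x

theorem gR_natDegree (R : Finset k) : (mR R).natDegree = R.card := by
  unfold mR
  rw [natDegree_prod_of_monic _ _ fun x _ => monic_X_sub_C x]
  simp

theorem gR_aeval {E : Type} [Field E] [Algebra k E] (R : Finset k) (x : E) :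
    aeval x (mR R) = 0 ↔ ∃ y ∈ R, x = algebraMap k E y := by
  unfold mR
  rw [map_prod, Finset.prod_eq_zero_iff]
  constructor
  · rintro ⟨y, hy, h⟩
    rw [map_sub, aeval_X, aeval_C, sub_eq_zero] at h
    exact ⟨y, hy, h⟩
  · rintro ⟨y, hy, h⟩
    exact ⟨y, hy, by simp [h]⟩

theorem gwronskian_ne {U : k[X]} (hU : U.Monic) {R : Finset k} (hd : R.card + 2 ≤ U.natDegree)
    (hp : ((U.natDegree - R.card : ℕ) : k) ≠ 0) :
    derivative U * mR R - U * derivative (mR R) ≠ 0 ∧
    (derivative U * mR R - U * derivative (mR R)).natDegree ≤ U.natDegree + R.card := by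
  set d := U.natDegree with hdd
  set r := R.card with hr
  have hm := gR_monic R
  have hmd : (mR R).natDegree = r := gR_natDegree R
  have e1 : (derivative U * mR R).coeff ((d - 1) + r) = d := by
    rw [coeff_mul_add_eq_of_natDegree_le (natDegree_derivative_le U) hmd.le, coeff_derivative]
    have h1 : d - 1 + 1 = d := by omega
    rw [h1, hdd, hU.coeff_natDegree, ← hmd, hm.coeff_natDegree]
    have : ((U.natDegree - 1 : ℕ) : k) + 1 = U.natDegree := by
      have h2 : 1 ≤ U.natDegree := by omega
      push_cast [Nat.cast_sub h2]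
      ring
    rw [this]
    ring
  have e2 : (U * derivative (mR R)).coeff ((d - 1) + r) = r := by
    rcases Nat.eq_zero_or_pos r with h0 | h0
    · have : mR R = 1 := by
        have hR : R = ∅ := Finset.card_eq_zero.1 (hr ▸ h0)
        rw [hR]; simp [mR]
      rw [this]
      simp [h0]
    · have h1 : (d - 1) + r = d + (r - 1) := by omega
      rw [h1, coeff_mul_add_eq_of_natDegree_le le_rfl ((natDegree_derivative_le _).trans (by rw [hmd])), coeff_derivative]
      have h2 : r - 1 + 1 = r := by omega
      have h3 : (mR R).coeff r = 1 := by rw [← hmd]; exact hm.coeff_natDegree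
      rw [h2, h3, hU.coeff_natDegree]
      have : ((r - 1 : ℕ) : k) + 1 = r := by
        push_cast [Nat.cast_sub h0]
        ring
      rw [this]
      ring
  constructor
  · intro h0
    have h1 : (derivative U * mR R - U * derivative (mR R)).coeff ((d - 1) + r) = 0 := by rw [h0, coeff_zero]
    rw [coeff_sub, e1, e2] at h1
    apply hp
    rw [Nat.cast_sub (by omega)]
    exact h1
  · refine (natDegree_sub_le _ _).trans (max_le ?_ ?_)
    · refine natDegree_mul_le.trans ?_
      have := natDegree_derivative_le U
      omega
    · refine natDegree_mul_le.trans ?_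
      have := natDegree_derivative_le (mR R)
      omega

/-- At most `deg V + #R` values of `b` make `V + m b` non-separable. -/
theorem nonsep_fiber {V : k[X]} (hV : V.Monic) {R : Finset k} (hd : R.card + 2 ≤ V.natDegree)
    (hR : ∀ x ∈ R, V.eval x ≠ 0) (hp : ((V.natDegree - R.card : ℕ) : k) ≠ 0) (B : Finset k)
    (hB : ∀ b ∈ B, ¬ (V + mR R * C b).Separable) : B.card ≤ V.natDegree + R.card := by
  classical
  obtain ⟨hW0, hWd⟩ := gwronskian_ne hV hd hp
  set W := derivative V * mR R - V * derivative (mR R) with hW
  let A := AlgebraicClosure k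
  have hWA : W.map (algebraMap k A) ≠ 0 := (Polynomial.map_ne_zero_iff (algebraMap k A).injective).2 hW0
  have hex : ∀ b ∈ B, ∃ θ : A, θ ∈ (W.map (algebraMap k A)).roots.toFinset ∧ aeval θ (mR R) ≠ 0 ∧
        algebraMap k A b * aeval θ (mR R) = -(aeval θ V) := by
    intro b hb
    have hns := hB b hb
    rw [Separable, isCoprime_iff_aeval_ne_zero_of_isAlgClosed k A] at hns
    push Not at hns
    obtain ⟨θ, h1, h2⟩ := hns
    simp only [map_add, map_mul, aeval_C, derivative_add, derivative_mul, derivative_C, mul_zero, add_zero] at h1 h2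
    have hm0 : aeval θ (mR R) ≠ 0 := by
      intro h0
      obtain ⟨y, hy, hθ⟩ := (gR_aeval (E := A) R θ).1 h0
      rw [h0, zero_mul, add_zero, hθ, aeval_algebraMap_apply, map_eq_zero, coe_aeval_eq_eval] at h1
      exact hR y hy h1
    refine ⟨θ, ?_, hm0, ?_⟩
    · rw [Multiset.mem_toFinset, mem_roots hWA, IsRoot, eval_map_algebraMap, hW]
      simp only [map_sub, map_mul]
      linear_combination (aeval θ (mR R)) * h2 - (aeval θ (derivative (mR R))) * h1
    · linear_combination h1
  choose! θ hθ1 hθ2 hθ3 using hex
  calc _ ≤ (W.map (algebraMap k A)).roots.toFinset.card := by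
        refine Finset.card_le_card_of_injOn θ (fun t ht => hθ1 t ht) ?_
        intro t ht t' ht' h
        have e1 := hθ3 t ht
        have e2 := hθ3 t' ht'
        rw [← h] at e2
        have e3 := mul_right_cancel₀ (hθ2 t ht) (e1.trans e2.symm)
        exact (algebraMap k A).injective e3
    _ ≤ (W.map (algebraMap k A)).roots.card := Multiset.toFinset_card_le _
    _ ≤ (W.map (algebraMap k A)).natDegree := card_roots' _
    _ ≤ W.natDegree := natDegree_map_le
    _ ≤ _ := hWd

end

end Run7.h876.EN
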