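import Pool.Agent.Run7.h876.EN.FF3

/-!
# Points over the finite extensions of a finite field
-/

set_option autoImplicit false
set_option linter.unusedSectionVars false

namespace Run7.h876.EN

open Finset Polynomial
open Pool.Agent.H341R2.Sharp

/-- The number of the points of the affine curve `y² = f(x)` with coordinates in the extension of
degree `m` of the finite field `k` with `q` elements. -/
noncomputable def affinePoints {k : Type} [Field k] (q : ℕ) (f : k[X]) (m : ℕ) : ℕ :=
  Nat.card {P : AlgebraicClosure k × AlgebraicClosure k //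
    P.1 ^ (q ^ m) = P.1 ∧ P.2 ^ (q ^ m) = P.2 ∧ P.2 ^ 2 = aeval P.1 f}

section
variable {k : Type} [Field k] [Fintype k] [DecidableEq k]

theorem card_pts_ext {E : Type} [Field E] [Fintype E] [DecidableEq E] (hE : ringChar E ≠ 2) (g : E → E) :
    ((Nat.card {P : E × E // P.2 ^ 2 = g P.1} : ℕ) : ℤ) = Fintype.card E + ∑ x : E, quadraticChar E (g x) := by
  rw [Nat.card_eq_fintype_card, Fintype.card_subtype]
  have h1 : #{P : E × E | P.2 ^ 2 = g P.1} =
      ∑ x : E, #{P ∈ ({P : E × E | P.2 ^ 2 = g P.1} : Finset (E × E)) | P.1 = x} :=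
    Finset.card_eq_sum_card_fiberwise (fun _ _ => Finset.mem_coe.2 (Finset.mem_univ _))
  have h2 : ∀ x : E, ((#{P ∈ ({P : E × E | P.2 ^ 2 = g P.1} : Finset (E × E)) | P.1 = x} : ℕ) : ℤ)
      = quadraticChar E (g x) + 1 := by
    intro x
    rw [← quadraticChar_card_sqrts hE]
    norm_cast
    refine Finset.card_bij (fun P _ => P.2) ?_ ?_ ?_
    · intro P hP
      simp only [Finset.mem_filter, Finset.mem_univ, true_and] at hP
      simp only [Set.mem_toFinset, Set.mem_ofPred_eq]
      rw [hP.1, hP.2]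
    · intro P hP Q hQ h
      simp only [Finset.mem_filter, Finset.mem_univ, true_and] at hP hQ
      exact Prod.ext (hP.2.trans hQ.2.symm) h
    · intro y hy
      simp only [Set.mem_toFinset, Set.mem_ofPred_eq] at hy
      exact ⟨(x, y), by simp [hy], rfl⟩
  rw [h1]
  push_cast
  rw [Finset.sum_congr rfl fun x _ => h2 x, Finset.sum_add_distrib]
  simp [add_comm]

theorem affinePoints_eq (hk : ringChar k ≠ 2) (f : k[X]) {m : ℕ} (hm : 1 ≤ m) :
    (affinePoints (Fintype.card k) f m : ℤ) = (Fintype.card k : ℤ) ^ m + T f m := by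
  classical
  obtain ⟨E, i1, i2, i3, i4, hfr, hcard⟩ := exists_ext (k := k) m hm
  have hE : ringChar E ≠ 2 := by rwa [← Algebra.ringChar_eq k E]
  have : Module.Finite k E := Module.finite_of_finrank_pos (by rw [hfr]; omega)
  let Cl := AlgebraicClosure k
  let φ : E →ₐ[k] Cl := IsAlgClosed.lift
  have hφ : Function.Injective φ := φ.toRingHom.injective
  have hfix : ∀ z : Cl, z ^ (Fintype.card k ^ m) = z ↔ z ∈ Set.range φ := by
    have h1 : ∀ x : E, (φ x) ^ (Fintype.card k ^ m) = φ x := by
      intro x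
      rw [← map_pow, ← hcard, FiniteField.pow_card]
    have hq : 1 < Fintype.card k ^ m := by
      rw [← hcard]; exact Fintype.one_lt_card
    have h2 : (X ^ (Fintype.card k ^ m) - X : Cl[X]) ≠ 0 := FiniteField.X_pow_card_sub_X_ne_zero Cl hq
    have h3 : (X ^ (Fintype.card k ^ m) - X : Cl[X]).natDegree = Fintype.card k ^ m :=
      FiniteField.X_pow_card_sub_X_natDegree_eq Cl hq
    have h4 : (Finset.univ.image φ : Finset Cl) = (X ^ (Fintype.card k ^ m) - X : Cl[X]).roots.toFinset := by
      refine Finset.eq_of_subset_of_card_le ?_ ?_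
      · intro z hz
        obtain ⟨x, _, rfl⟩ := Finset.mem_image.1 hz
        rw [Multiset.mem_toFinset, mem_roots h2, IsRoot]
        simp only [eval_sub, eval_pow, eval_X]
        rw [h1 x, sub_self]
      · rw [Finset.card_image_of_injective _ hφ, Finset.card_univ, hcard]
        exact (Multiset.toFinset_card_le _).trans ((card_roots' _).trans h3.le)
    intro z
    constructor
    · intro hz
      have : z ∈ (Finset.univ.image φ : Finset Cl) := by
        rw [h4, Multiset.mem_toFinset, mem_roots h2, IsRoot]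
        simp only [eval_sub, eval_pow, eval_X]
        rw [hz, sub_self]
      obtain ⟨x, _, hx⟩ := Finset.mem_image.1 this
      exact ⟨x, hx⟩
    · rintro ⟨x, rfl⟩
      exact h1 x
  have hcongr : affinePoints (Fintype.card k) f m = Nat.card {P : E × E // P.2 ^ 2 = aeval P.1 f} := by
    unfold affinePoints
    symm
    refine Nat.card_congr (Equiv.ofBijective (fun P => ⟨(φ P.1.1, φ P.1.2), ?_, ?_, ?_⟩) ⟨?_, ?_⟩)
    · exact (hfix _).2 ⟨_, rfl⟩
    · exact (hfix _).2 ⟨_, rfl⟩
    · show (φ P.1.2) ^ 2 = aeval (φ P.1.1) f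
      rw [← map_pow, P.2, aeval_algHom_apply]
    · intro P P' h
      simp only [Subtype.mk.injEq, Prod.mk.injEq] at h
      exact Subtype.ext (Prod.ext (hφ h.1) (hφ h.2))
    · rintro ⟨⟨z, w⟩, hz, hw, h⟩
      obtain ⟨x, rfl⟩ := (hfix z).1 hz
      obtain ⟨y, rfl⟩ := (hfix w).1 hw
      refine ⟨⟨(x, y), hφ ?_⟩, rfl⟩
      simp only at h ⊢
      rw [map_pow, h, aeval_algHom_apply]
  rw [hcongr, card_pts_ext hE (fun x => aeval x f), hcard]
  have h := T_eq_sum (E := E) hk f
  rw [hfr] at h
  rw [h]
  push_cast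
  rfl

theorem trc_eq {f : k[X]} (hk : ringChar k ≠ 2) (hs : f.Separable) (m : ℕ) :
    trc f m = (Fintype.card k : ℤ) ^ (m + 1) + 1 -
      (affinePoints (Fintype.card k) f (m + 1) + if Odd f.natDegree then 1 else 2) := by
  classical
  unfold trc dlt
  rw [if_pos hs, affinePoints_eq hk f (by omega)]
  split_ifs
  · push_cast; ring
  · push_cast; ring

end

end Run7.h876.EN
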