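import Pool.Agent.H341R2.WeilSharp

/-!
# Moments of the character sums of the curves `y² = U(x) + m(x) (a x + b)` over a finite field
-/

set_option autoImplicit false
set_option linter.unusedSectionVars false

namespace Run7.h876.EN

open Finset Polynomial
open Pool.Agent.H341R2.Sharp

section
variable {k : Type} [Field k] [Fintype k] [DecidableEq k]

/-- `∏_{x ∈ R} (X - x)` -/
noncomputable def mR (R : Finset k) : k[X] := ∏ x ∈ R, (X - C x)

/-- The polynomial `U + m (a X + b)`. -/
noncomputable def fam (U : k[X]) (R : Finset k) (t : k × k) : k[X] := U + mR R * (C t.1 * X + C t.2)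

theorem mR_monic (R : Finset k) : (mR R).Monic := monic_prod_of_monic _ _ fun x _ => monic_X_sub_C x

theorem mR_natDegree (R : Finset k) : (mR R).natDegree = R.card := by
  unfold mR
  rw [natDegree_prod_of_monic _ _ fun x _ => monic_X_sub_C x]
  simp

theorem mR_eval (R : Finset k) (x : k) : (mR R).eval x = 0 ↔ x ∈ R := by
  unfold mR
  rw [eval_prod, Finset.prod_eq_zero_iff]
  constructor
  · rintro ⟨y, hy, h⟩
    rw [eval_sub, eval_X, eval_C, sub_eq_zero] at h
    rwa [h]
  · intro h
    exact ⟨x, h, by simp⟩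

theorem mR_aeval {E : Type} [Field E] [Algebra k E] (R : Finset k) (x : E) :
    aeval x (mR R) = 0 ↔ ∃ y ∈ R, x = algebraMap k E y := by
  unfold mR
  rw [map_prod, Finset.prod_eq_zero_iff]
  constructor
  · rintro ⟨y, hy, h⟩
    rw [map_sub, aeval_X, aeval_C, sub_eq_zero] at h
    exact ⟨y, hy, h⟩
  · rintro ⟨y, hy, h⟩
    exact ⟨y, hy, by simp [h]⟩

/-! ### the pairs `(a, b)` with a prescribed value -/

theorem fam_eval (U : k[X]) (R : Finset k) (t : k × k) (x : k) :
    (fam U R t).eval x = U.eval x + (mR R).eval x * (t.1 * x + t.2) := by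
  unfold fam
  simp

theorem sum_chi_one (hk : ringChar k ≠ 2) (U : k[X]) (R : Finset k) (hR : ∀ x ∈ R, quadraticChar k (U.eval x) = 1) (x : k) :
    ∑ t : k × k, quadraticChar k ((fam U R t).eval x) = if x ∈ R then (Fintype.card k : ℤ) ^ 2 else 0 := by
  split_ifs with h
  · have h1 : ∀ t : k × k, quadraticChar k ((fam U R t).eval x) = 1 := by
      intro t
      rw [fam_eval, (mR_eval R x).2 h, zero_mul, add_zero, hR x h]
    rw [Finset.sum_congr rfl fun t _ => h1 t, Finset.sum_const, Finset.card_univ, Fintype.card_prod]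
    simp [sq]
  · have hm : (mR R).eval x ≠ 0 := fun h0 => h ((mR_eval R x).1 h0)
    rw [Fintype.sum_prod_type]
    refine Finset.sum_eq_zero fun a _ => ?_
    rw [← quadraticChar_sum_zero hk]
    refine Fintype.sum_equiv ((Equiv.addLeft (a * x)).trans ((Equiv.mulLeft₀ _ hm).trans (Equiv.addLeft (U.eval x)))) _ _ fun b => ?_
    rw [fam_eval]
    rfl

theorem sum_sq_chi : ∑ a : k, (quadraticChar k a) ^ 2 = (Fintype.card k : ℤ) - 1 := by
  have h1 : ∀ a : k, (quadraticChar k a) ^ 2 = if a = 0 then 0 else 1 := by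
    intro a
    split_ifs with h
    · rw [h, MulChar.map_zero]; norm_num
    · exact quadraticChar_sq_one h
  rw [Finset.sum_congr rfl fun a _ => h1 a]
  have h2 : ∑ a : k, (if a = 0 then (0 : ℤ) else 1) = ∑ a : k, ((1 : ℤ) - if a = 0 then 1 else 0) := by
    refine Finset.sum_congr rfl fun a _ => ?_
    split_ifs <;> norm_num
  rw [h2, Finset.sum_sub_distrib, Finset.sum_ite_eq' Finset.univ (0 : k)]
  simp

theorem sum_chi_two (hk : ringChar k ≠ 2) (U : k[X]) (R : Finset k) (hR : ∀ x ∈ R, quadraticChar k (U.eval x) = 1) (x y : k) :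
    ∑ t : k × k, quadraticChar k ((fam U R t).eval x) * quadraticChar k ((fam U R t).eval y) =
      if x ∈ R then (if y ∈ R then (Fintype.card k : ℤ) ^ 2 else 0) else
        (if x = y then (Fintype.card k : ℤ) ^ 2 - Fintype.card k else 0) := by
  by_cases hx : x ∈ R
  · rw [if_pos hx]
    have h1 : ∀ t : k × k, quadraticChar k ((fam U R t).eval x) = 1 := by
      intro t
      rw [fam_eval, (mR_eval R x).2 hx, zero_mul, add_zero, hR x hx]
    rw [← sum_chi_one hk U R hR y]
    refine Finset.sum_congr rfl fun t _ => ?_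
    rw [h1, one_mul]
  rw [if_neg hx]
  have hmx : (mR R).eval x ≠ 0 := fun h0 => hx ((mR_eval R x).1 h0)
  by_cases hy : y ∈ R
  · have hne : x ≠ y := fun h => hx (h ▸ hy)
    rw [if_neg hne]
    have h1 : ∀ t : k × k, quadraticChar k ((fam U R t).eval y) = 1 := by
      intro t
      rw [fam_eval, (mR_eval R y).2 hy, zero_mul, add_zero, hR y hy]
    have h2 := sum_chi_one hk U R hR x
    rw [if_neg hx] at h2
    rw [← h2]
    refine Finset.sum_congr rfl fun t _ => ?_
    rw [h1, mul_one]
  have hmy : (mR R).eval y ≠ 0 := fun h0 => hy ((mR_eval R y).1 h0)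
  split_ifs with hxy
  · subst hxy
    rw [Fintype.sum_prod_type]
    have h1 : ∀ a : k, ∑ b : k, quadraticChar k ((fam U R (a, b)).eval x) * quadraticChar k ((fam U R (a, b)).eval x) =
        (Fintype.card k : ℤ) - 1 := by
      intro a
      rw [← sum_sq_chi (k := k)]
      refine Fintype.sum_equiv ((Equiv.addLeft (a * x)).trans ((Equiv.mulLeft₀ _ hmx).trans (Equiv.addLeft (U.eval x)))) _ _ fun b => ?_
      rw [fam_eval, ← sq]
      rfl
    simp only [h1]
    rw [Finset.sum_const, Finset.card_univ, nsmul_eq_mul]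
    ring
  · have hxy' : x - y ≠ 0 := sub_ne_zero.2 hxy
    let e : k × k ≃ k × k :=
      { toFun := fun t => (U.eval x + (mR R).eval x * (t.1 * x + t.2), U.eval y + (mR R).eval y * (t.1 * y + t.2))
        invFun := fun d => (((d.1 - U.eval x) / (mR R).eval x - (d.2 - U.eval y) / (mR R).eval y) / (x - y),
          (d.1 - U.eval x) / (mR R).eval x -
            ((d.1 - U.eval x) / (mR R).eval x - (d.2 - U.eval y) / (mR R).eval y) / (x - y) * x)
        left_inv := fun t => by
          ext
          · simp only; field_simp; ring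
          · simp only; field_simp; ring
        right_inv := fun d => by
          ext
          · simp only; field_simp; ring
          · simp only; field_simp; ring }
    have h5 : ∑ t : k × k, quadraticChar k ((fam U R t).eval x) * quadraticChar k ((fam U R t).eval y) =
        ∑ d : k × k, quadraticChar k d.1 * quadraticChar k d.2 :=
      Fintype.sum_equiv e _ _ fun t => by rw [fam_eval, fam_eval]; rfl
    rw [h5, Fintype.sum_prod_type, ← Finset.sum_mul_sum, quadraticChar_sum_zero hk, zero_mul]

/-- the character sum -/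
noncomputable def T1 (U : k[X]) (R : Finset k) (t : k × k) : ℤ := ∑ x : k, quadraticChar k ((fam U R t).eval x)

theorem sum_T1 (hk : ringChar k ≠ 2) (U : k[X]) (R : Finset k) (hR : ∀ x ∈ R, quadraticChar k (U.eval x) = 1) :
    ∑ t : k × k, T1 U R t = R.card * (Fintype.card k : ℤ) ^ 2 := by
  unfold T1
  rw [Finset.sum_comm, Finset.sum_congr rfl fun x _ => sum_chi_one hk U R hR x, ← Finset.sum_filter,
    Finset.filter_mem_eq_inter, Finset.univ_inter, Finset.sum_const, nsmul_eq_mul]

theorem sum_T1_sq (hk : ringChar k ≠ 2) (U : k[X]) (R : Finset k) (hR : ∀ x ∈ R, quadraticChar k (U.eval x) = 1) :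
    ∑ t : k × k, (T1 U R t) ^ 2 = (R.card : ℤ) ^ 2 * (Fintype.card k : ℤ) ^ 2 +
      ((Fintype.card k : ℤ) - R.card) * ((Fintype.card k : ℤ) ^ 2 - Fintype.card k) := by
  have h1 : ∑ t : k × k, (T1 U R t) ^ 2 = ∑ x : k, ∑ y : k, ∑ t : k × k,
      quadraticChar k ((fam U R t).eval x) * quadraticChar k ((fam U R t).eval y) := by
    have h2 : ∀ t : k × k, (T1 U R t) ^ 2 = ∑ x : k, ∑ y : k,
        quadraticChar k ((fam U R t).eval x) * quadraticChar k ((fam U R t).eval y) := by
      intro t
      unfold T1
      rw [sq, Finset.sum_mul_sum]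
    rw [Finset.sum_congr rfl fun c _ => h2 c, Finset.sum_comm]
    refine Finset.sum_congr rfl fun x _ => ?_
    rw [Finset.sum_comm]
  rw [h1]
  have h3 : ∀ x : k, ∑ y : k, ∑ t : k × k,
      quadraticChar k ((fam U R t).eval x) * quadraticChar k ((fam U R t).eval y) =
      if x ∈ R then (R.card : ℤ) * (Fintype.card k : ℤ) ^ 2 else ((Fintype.card k : ℤ) ^ 2 - Fintype.card k) := by
    intro x
    rw [Finset.sum_congr rfl fun y _ => sum_chi_two hk U R hR x y]
    split_ifs with hx
    · rw [← Finset.sum_filter, Finset.filter_mem_eq_inter, Finset.univ_inter, Finset.sum_const, nsmul_eq_mul]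
    · rw [Finset.sum_ite_eq Finset.univ x]
      simp
  rw [Finset.sum_congr rfl fun x _ => h3 x]
  have h4 : ∑ x : k, (if x ∈ R then (R.card : ℤ) * (Fintype.card k : ℤ) ^ 2 else ((Fintype.card k : ℤ) ^ 2 - Fintype.card k)) =
      ∑ x : k, (((Fintype.card k : ℤ) ^ 2 - Fintype.card k) + if x ∈ R then (R.card : ℤ) * (Fintype.card k : ℤ) ^ 2 - ((Fintype.card k : ℤ) ^ 2 - Fintype.card k) else 0) := by
    refine Finset.sum_congr rfl fun x _ => ?_
    split_ifs <;> ring
  rw [h4, Finset.sum_add_distrib, ← Finset.sum_filter, Finset.filter_mem_eq_inter, Finset.univ_inter, Finset.sum_const,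
    Finset.sum_const, Finset.card_univ, nsmul_eq_mul, nsmul_eq_mul]
  ring

/-! ### the quadratic extension -/

theorem fam_aeval {E : Type} [Field E] [Algebra k E] (U : k[X]) (R : Finset k) (t : k × k) (x : E) :
    aeval x (fam U R t) = aeval x U + aeval x (mR R) * (algebraMap k E t.1 * x + algebraMap k E t.2) := by
  unfold fam
  simp

theorem sum_T2 (hk : ringChar k ≠ 2) (U : k[X]) (R : Finset k) (hR : ∀ x ∈ R, quadraticChar k (U.eval x) = 1)
    (E : Type) [Field E] [Fintype E] [DecidableEq E] [Algebra k E] (hE : Module.finrank k E = 2) :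
    ∑ t : k × k, ∑ x : E, quadraticChar E (aeval x (fam U R t)) =
      (R.card : ℤ) * (Fintype.card k : ℤ) ^ 2 +
      ((Fintype.card k : ℤ) - R.card) * ((Fintype.card k : ℤ) ^ 2 - Fintype.card k) := by
  classical
  have hchar : ringChar E ≠ 2 := by rwa [← Algebra.ringChar_eq k E]
  rw [Finset.sum_comm]
  -- values at the points of the small field
  have hqc : ∀ y : k, y ≠ 0 → quadraticChar E (algebraMap k E y) = 1 := by
    intro y hy
    have h1 := qc_norm (E := E) hk (algebraMap k E y)
    rw [Algebra.norm_algebraMap, hE, map_pow, quadraticChar_sq_one hy] at h1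
    exact h1
  have hin : ∀ x : k, ∑ t : k × k, quadraticChar E (aeval (algebraMap k E x) (fam U R t)) =
      if x ∈ R then (Fintype.card k : ℤ) ^ 2 else ((Fintype.card k : ℤ) ^ 2 - Fintype.card k) := by
    intro x
    have h0 : ∀ t : k × k, quadraticChar E (aeval (algebraMap k E x) (fam U R t)) =
        quadraticChar k ((fam U R t).eval x) * quadraticChar k ((fam U R t).eval x) := by
      intro t
      rw [aeval_algebraMap_apply, ← sq]
      have e : aeval x (fam U R t) = (fam U R t).eval x := by rw [coe_aeval_eq_eval]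
      rw [e]
      by_cases h : (fam U R t).eval x = 0
      · rw [h, map_zero, MulChar.map_zero, MulChar.map_zero]; norm_num
      · rw [hqc _ h, quadraticChar_sq_one h]
    rw [Finset.sum_congr rfl fun t _ => h0 t, sum_chi_two hk U R hR x x]
    by_cases hx : x ∈ R
    · rw [if_pos hx, if_pos hx, if_pos hx]
    · rw [if_neg hx, if_neg hx, if_pos rfl]
  have hout : ∀ x : E, x ∉ Set.range (algebraMap k E) →
      ∑ t : k × k, quadraticChar E (aeval x (fam U R t)) = 0 := by
    intro x hx
    have hm : aeval x (mR R) ≠ 0 := by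
      intro h0
      obtain ⟨y, _, hy⟩ := (mR_aeval R x).1 h0
      exact hx ⟨y, hy.symm⟩
    -- the map `t ↦ a x + b` is bijective
    have hinj : Function.Injective (fun t : k × k => algebraMap k E t.1 * x + algebraMap k E t.2) := by
      intro s t hst
      simp only at hst
      by_cases h1 : s.1 = t.1
      · rw [h1] at hst
        exact Prod.ext h1 ((algebraMap k E).injective (add_left_cancel hst))
      · exfalso
        apply hx
        have h2 : algebraMap k E (s.1 - t.1) ≠ 0 := by
          rw [Ne, map_eq_zero]; exact sub_ne_zero.2 h1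
        refine ⟨(t.2 - s.2) / (s.1 - t.1), ?_⟩
        rw [map_div₀, div_eq_iff h2, map_sub, map_sub]
        linear_combination -hst
    have hcard : Fintype.card (k × k) = Fintype.card E := by
      rw [Fintype.card_prod, Module.card_eq_pow_finrank (K := k) (V := E), hE, sq]
    have hbij : Function.Bijective (fun t : k × k => algebraMap k E t.1 * x + algebraMap k E t.2) :=
      (Fintype.bijective_iff_injective_and_card _).2 ⟨hinj, hcard⟩
    rw [← quadraticChar_sum_zero hchar]
    refine Fintype.sum_equiv ((Equiv.ofBijective _ hbij).trans ((Equiv.mulLeft₀ _ hm).trans (Equiv.addLeft (aeval x U)))) _ _ fun t => ?_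
    rw [fam_aeval]
    rfl
  -- split the sum
  have hsplit : ∑ x : E, ∑ t : k × k, quadraticChar E (aeval x (fam U R t)) =
      ∑ x : k, ∑ t : k × k, quadraticChar E (aeval (algebraMap k E x) (fam U R t)) := by
    rw [← Finset.sum_image (s := (Finset.univ : Finset k)) (g := fun x : k => algebraMap k E x)
      (f := fun x : E => ∑ t : k × k, quadraticChar E (aeval x (fam U R t)))
      (fun x _ y _ h => (algebraMap k E).injective h)]
    refine (Finset.sum_subset (Finset.subset_univ _) fun x _ hx => hout x ?_).symm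
    rintro ⟨y, hy⟩
    exact hx (Finset.mem_image.2 ⟨y, Finset.mem_univ _, hy⟩)
  rw [hsplit, Finset.sum_congr rfl fun x _ => hin x]
  have h4 : ∑ x : k, (if x ∈ R then (Fintype.card k : ℤ) ^ 2 else ((Fintype.card k : ℤ) ^ 2 - Fintype.card k)) =
      ∑ x : k, (((Fintype.card k : ℤ) ^ 2 - Fintype.card k) + if x ∈ R then (Fintype.card k : ℤ) ^ 2 - ((Fintype.card k : ℤ) ^ 2 - Fintype.card k) else 0) := by
    refine Finset.sum_congr rfl fun x _ => ?_
    split_ifs <;> ring
  rw [h4, Finset.sum_add_distrib, ← Finset.sum_filter, Finset.filter_mem_eq_inter, Finset.univ_inter, Finset.sum_const,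
    Finset.sum_const, Finset.card_univ, nsmul_eq_mul, nsmul_eq_mul]
  ring

end

end Run7.h876.EN
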