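import Pool.Agent.Run7.h876.EN.FF2

/-!
# The moments of the traces of Frobenius in the family `U + m (a X + b)`
-/

set_option autoImplicit false
set_option linter.unusedSectionVars false

namespace Run7.h876.EN

open Finset Polynomial
open Pool.Agent.H341R2.Sharp
open Run7.h876.MM (avg)

/-- one point at infinity less than `2` if the degree is odd -/
def dlt (d : ℕ) : ℕ := if Odd d then 0 else 1

theorem dlt_le (d : ℕ) : dlt d ≤ 1 := by unfold dlt; split_ifs <;> omega

section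
variable {k : Type} [Field k] [Fintype k] [DecidableEq k]

open Classical in
/-- The trace of the `(m+1)`-st power of Frobenius on the first cohomology of `y² = f(x)` for a monic
separable polynomial `f`, and zero otherwise. -/
noncomputable def trc (f : k[X]) (m : ℕ) : ℤ := if f.Separable then -(T f (m + 1)) - dlt f.natDegree else 0

theorem not_csq_of_sep {f : k[X]} (hf : f.Separable) (hd : 1 ≤ f.natDegree) : ¬ IsCSq f := by
  rintro ⟨c, h, hgh⟩
  have h1 : IsUnit h := hf.squarefree h ⟨C c, by rw [hgh]; ring⟩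
  have h2 : h.natDegree = 0 := natDegree_eq_zero_of_isUnit h1
  have h3 : f.natDegree ≤ 0 := by
    rw [hgh]
    refine natDegree_mul_le.trans ?_
    rw [natDegree_C, natDegree_pow, h2]
  omega

theorem T_le_of {f : k[X]} (hk : ringChar k ≠ 2) (hf : f.Monic) (hd : 1 ≤ f.natDegree) (h : ¬ IsCSq f) (m : ℕ) :
    |(T f (m + 1) : ℝ)| ≤ 5 * f.natDegree * (Real.sqrt (Fintype.card k)) ^ (m + 1) :=
  (T_bound hk hf hd (fun c g hg => h ⟨c, g, hg⟩) (m + 1) (by omega)).1

theorem one_le_sq : (1 : ℝ) ≤ Real.sqrt (Fintype.card k) := by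
  rw [Real.one_le_sqrt]
  exact_mod_cast Fintype.card_pos

theorem trc_le {f : k[X]} (hk : ringChar k ≠ 2) (hf : f.Monic) (hd : 1 ≤ f.natDegree) (m : ℕ) :
    |(trc f m : ℝ)| ≤ (5 * f.natDegree + 1) * (Real.sqrt (Fintype.card k)) ^ (m + 1) := by
  classical
  have h1 : (1 : ℝ) ≤ (Real.sqrt (Fintype.card k)) ^ (m + 1) := one_le_pow₀ one_le_sq
  unfold trc
  split_ifs with hs
  · have h2 := T_le_of hk hf hd (not_csq_of_sep hs hd) m
    push_cast
    have h3 : ((dlt f.natDegree : ℕ) : ℝ) ≤ 1 := by exact_mod_cast dlt_le _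
    have h4 : (0 : ℝ) ≤ (dlt f.natDegree : ℕ) := by positivity
    have h5 : |-(T f (m + 1) : ℝ) - (dlt f.natDegree : ℕ)| ≤ |(T f (m + 1) : ℝ)| + 1 := by
      refine (abs_sub _ _).trans ?_
      rw [abs_neg, abs_of_nonneg h4]
      linarith
    refine h5.trans ?_
    rw [add_mul, one_mul]
    linarith
  · simp only [Int.cast_zero, abs_zero]
    positivity

/-- a finite field is an extension of degree one of itself -/
theorem T_one (hk : ringChar k ≠ 2) (f : k[X]) : T f 1 = ∑ x : k, quadraticChar k (f.eval x) := by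
  have h := T_eq_sum (E := k) hk f
  rw [Module.finrank_self] at h
  rw [h]
  refine Finset.sum_congr rfl fun x _ => ?_
  rw [coe_aeval_eq_eval]

theorem exists_ext (m : ℕ) (hm : 1 ≤ m) : ∃ (E : Type) (_ : Field E) (_ : Fintype E) (_ : DecidableEq E) (_ : Algebra k E),
    Module.finrank k E = m ∧ Fintype.card E = Fintype.card k ^ m := by
  classical
  obtain ⟨p, hp⟩ := CharP.exists k
  have : Fact (Nat.Prime p) := ⟨CharP.char_is_prime k p⟩
  have : NeZero m := ⟨by omega⟩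
  let E := FiniteField.Extension k p m
  let _ : Fintype E := Fintype.ofFinite E
  have hfr : Module.finrank k E = m := FiniteField.finrank_extension k p m
  have hcard : Fintype.card E = Fintype.card k ^ m := by
    rw [Module.card_eq_pow_finrank (K := k) (V := E), hfr]
  exact ⟨E, inferInstance, inferInstance, inferInstance, inferInstance, hfr, hcard⟩

theorem T_trivial (hk : ringChar k ≠ 2) (f : k[X]) (m : ℕ) (hm : 1 ≤ m) :
    |(T f m : ℝ)| ≤ (Fintype.card k : ℝ) ^ m := by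
  obtain ⟨E, i1, i2, i3, i4, hfr, hcard⟩ := exists_ext (k := k) m hm
  have h := T_eq_sum (E := E) hk f
  rw [hfr] at h
  rw [h]
  push_cast
  refine (Finset.abs_sum_le_sum_abs _ _).trans ?_
  have h1 : ∀ x ∈ (Finset.univ : Finset E), |((quadraticChar E (aeval x f) : ℤ) : ℝ)| ≤ 1 := by
    intro x _
    by_cases h0 : aeval x f = 0
    · rw [h0, MulChar.map_zero]; simp
    · rcases quadraticChar_dichotomy h0 with h | h <;> rw [h] <;> simp
  refine (Finset.sum_le_sum h1).trans ?_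
  rw [Finset.sum_const, Finset.card_univ, hcard, nsmul_eq_mul, mul_one]
  push_cast
  rfl

theorem sum_bad_le {α : Type} [DecidableEq α] (Bad Sq : Finset α) (φ : α → ℝ) (B1 B2 nb ns : ℝ) (hB1 : 0 ≤ B1) (hB2 : 0 ≤ B2)
    (hnb : (Bad.card : ℝ) ≤ nb) (hns : (Sq.card : ℝ) ≤ ns) (h1 : ∀ t ∈ Bad, t ∉ Sq → |φ t| ≤ B1)
    (h2 : ∀ t ∈ Sq, |φ t| ≤ B2) : |∑ t ∈ Bad, φ t| ≤ nb * B1 + ns * B2 := by
  have h3 : ∀ t ∈ Bad, |φ t| ≤ B1 + if t ∈ Sq then B2 else 0 := by
    intro t ht
    split_ifs with hs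
    · linarith [h2 t hs]
    · rw [add_zero]; exact h1 t ht hs
  refine (Finset.abs_sum_le_sum_abs _ _).trans ((Finset.sum_le_sum h3).trans ?_)
  rw [Finset.sum_add_distrib, Finset.sum_const, nsmul_eq_mul, ← Finset.sum_filter, Finset.sum_const, nsmul_eq_mul]
  have h4 : (((Bad.filter fun t => t ∈ Sq).card : ℕ) : ℝ) ≤ ns := by
    refine le_trans ?_ hns
    exact_mod_cast Finset.card_le_card fun t ht => (Finset.mem_filter.1 ht).2
  exact add_le_add (mul_le_mul_of_nonneg_right hnb hB1) (mul_le_mul_of_nonneg_right h4 hB2)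

/-- the constant of the moments -/
noncomputable def C1 (d : ℕ) : ℝ := (2 * d) * ((5 * d + 1) + (d + 1) ^ 2 + (6 * d) ^ 2) + 2 ^ d * (2 + (d + 1) ^ 2 + (d + 1) ^ 2) + 2 * d + 4

theorem C1_nonneg (d : ℕ) : 0 ≤ C1 d := by unfold C1; positivity

/-- **The moments of the traces.** -/
theorem moments (hk : ringChar k ≠ 2) {U : k[X]} (hU : U.Monic) {R : Finset k} (hd : R.card + 2 ≤ U.natDegree)
    (hd3 : 3 ≤ U.natDegree) (hR : ∀ x ∈ R, quadraticChar k (U.eval x) = 1)
    (hp : ((U.natDegree - R.card : ℕ) : k) ≠ 0) :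
    |(∑ t : k × k, (trc (fam U R t) 0 : ℝ)) / (Fintype.card k : ℝ) ^ 2 + (R.card + dlt U.natDegree : ℕ)| ≤
      C1 U.natDegree / Real.sqrt (Fintype.card k) ∧
    |(∑ t : k × k, ((trc (fam U R t) 0 : ℝ) + (R.card + dlt U.natDegree : ℕ)) ^ 2) / (Fintype.card k : ℝ) ^ 2 -
      Fintype.card k| ≤ C1 U.natDegree * Real.sqrt (Fintype.card k) ∧
    |(∑ t : k × k, (trc (fam U R t) 1 : ℝ)) / (Fintype.card k : ℝ) ^ 2 + Fintype.card k| ≤
      C1 U.natDegree * Real.sqrt (Fintype.card k) := by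
  classical
  obtain ⟨d, hdd⟩ : ∃ d, d = U.natDegree := ⟨_, rfl⟩
  obtain ⟨r, hr⟩ : ∃ r, r = R.card := ⟨_, rfl⟩
  obtain ⟨δ, hδ⟩ : ∃ δ : ℝ, δ = (dlt d : ℕ) := ⟨_, rfl⟩
  have hδ0 : 0 ≤ δ := by rw [hδ]; positivity
  have hδ1 : δ ≤ 1 := by rw [hδ]; exact_mod_cast dlt_le d
  rw [← hdd, ← hr]
  have hd' : r + 2 ≤ d := by rw [hr, hdd]; exact hd
  obtain ⟨Q, hQ⟩ : ∃ Q, Q = Real.sqrt (Fintype.card k) := ⟨_, rfl⟩
  obtain ⟨q, hq⟩ : ∃ q : ℝ, q = Fintype.card k := ⟨_, rfl⟩
  have hQ1 : 1 ≤ Q := by rw [hQ]; exact one_le_sq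
  have hQQ : Q * Q = q := by rw [hQ, hq]; exact Real.mul_self_sqrt (by positivity)
  have hq1 : 1 ≤ q := by rw [← hQQ]; exact one_le_mul_of_one_le_of_one_le hQ1 hQ1
  have hq0 : 0 < q := by linarith
  have hQ0 : 0 < Q := by linarith
  have hQq : Q ≤ q := by rw [← hQQ]; exact le_mul_of_one_le_left hQ0.le hQ1
  have hfd : ∀ t, (fam U R t).Monic ∧ (fam U R t).natDegree = d := fun t => by
    have := fam_monic hU hd t
    rwa [← hdd] at this
  set Bad : Finset (k × k) := {t : k × k | ¬ (fam U R t).Separable} with hBad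
  set Sq : Finset (k × k) := {t : k × k | IsCSq (fam U R t)} with hSq
  have hr0 : (0 : ℝ) ≤ r := by positivity
  have hrd : (r : ℝ) ≤ d := by exact_mod_cast (by omega : r ≤ d)
  have hd0 : (0 : ℝ) ≤ d := by positivity
  have hBadc : (Bad.card : ℝ) ≤ 2 * d * q := by
    have h := card_nonsep hU hd (fun x hx h0 => by
      have := hR x hx
      rw [h0, MulChar.map_zero] at this
      exact zero_ne_one this) hp
    rw [← hdd, ← hr] at h
    have h2 : (Bad.card : ℝ) ≤ ((d : ℝ) + r) * q := by rw [hq]; exact_mod_cast h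
    refine h2.trans (mul_le_mul_of_nonneg_right (by linarith) hq0.le)
  have hSqc : (Sq.card : ℝ) ≤ 2 ^ d := by
    have h := card_csq hk hU hd hd3 (fun x hx => by
      have h1 := hR x hx
      have h0 : U.eval x ≠ 0 := by
        intro h0
        rw [h0, MulChar.map_zero] at h1
        exact zero_ne_one h1
      exact (quadraticChar_one_iff_isSquare h0).1 h1)
    rw [← hr] at h
    have h2 : Sq.card ≤ 2 ^ d := h.trans (Nat.pow_le_pow_right (by norm_num) (by omega))
    exact_mod_cast h2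
  -- the sums over all members
  have hT1 : ∀ t, T (fam U R t) 1 = T1 U R t := fun t => T_one hk _
  have hS1 : ∑ t : k × k, (T (fam U R t) 1 : ℝ) = r * q ^ 2 := by
    have h := sum_T1 hk U R hR
    rw [Finset.sum_congr rfl fun t _ => by rw [hT1 t], hq, hr]
    exact_mod_cast h
  have hS2 : ∑ t : k × k, ((T (fam U R t) 1 : ℝ)) ^ 2 = (r : ℝ) ^ 2 * q ^ 2 + (q - r) * (q ^ 2 - q) := by
    have h := sum_T1_sq hk U R hR
    rw [Finset.sum_congr rfl fun t _ => by rw [hT1 t], hq, hr]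
    exact_mod_cast h
  have hS3 : ∑ t : k × k, (T (fam U R t) 2 : ℝ) = r * q ^ 2 + (q - r) * (q ^ 2 - q) := by
    obtain ⟨E, i1, i2, i3, i4, hfr, hcard⟩ := exists_ext (k := k) 2 (by norm_num)
    have h := sum_T2 hk U R hR E hfr
    have h2 : ∀ t, T (fam U R t) 2 = ∑ x : E, quadraticChar E (aeval x (fam U R t)) := by
      intro t
      have := T_eq_sum (E := E) hk (fam U R t)
      rwa [hfr] at this
    rw [Finset.sum_congr rfl fun t _ => by rw [h2 t], hq, hr]
    exact_mod_cast h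
  -- the bounds
  have hd1 : ∀ t, 1 ≤ (fam U R t).natDegree := fun t => by rw [(hfd t).2]; omega
  have hb1 : ∀ t, t ∉ Sq → |(T (fam U R t) 1 : ℝ)| ≤ 5 * d * Q := by
    intro t ht
    have := T_le_of hk (hfd t).1 (hd1 t) (fun h => ht (Finset.mem_filter.2 ⟨Finset.mem_univ _, h⟩)) 0
    rw [(hfd t).2, zero_add, pow_one, ← hQ] at this
    exact this
  have hb2 : ∀ t, t ∉ Sq → |(T (fam U R t) 2 : ℝ)| ≤ 5 * d * q := by
    intro t ht
    have := T_le_of hk (hfd t).1 (hd1 t) (fun h => ht (Finset.mem_filter.2 ⟨Finset.mem_univ _, h⟩)) 1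
    rw [(hfd t).2, ← hQ] at this
    have e : Q ^ (1 + 1) = q := by rw [← hQQ]; ring
    rw [e] at this
    exact this
  have hc1 : ∀ t, |(T (fam U R t) 1 : ℝ)| ≤ q := by
    intro t
    have := T_trivial hk (fam U R t) 1 le_rfl
    rwa [pow_one, ← hq] at this
  have hc2 : ∀ t, |(T (fam U R t) 2 : ℝ)| ≤ q ^ 2 := by
    intro t
    have := T_trivial hk (fam U R t) 2 (by norm_num)
    rwa [← hq] at this
  -- rewriting with the bad members
  have hsplit : ∀ (g h : k × k → ℝ), (∀ t, (fam U R t).Separable → g t = h t) →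
      ∑ t, g t = ∑ t, h t + ∑ t ∈ Bad, (g t - h t) := by
    intro g h hgh
    rw [hBad, Finset.sum_filter, ← Finset.sum_add_distrib]
    refine Finset.sum_congr rfl fun t _ => ?_
    by_cases hs : (fam U R t).Separable
    · rw [if_neg (not_not.2 hs), hgh t hs, add_zero]
    · rw [if_pos hs]; ring
  have hcardt : (∑ _t : k × k, (1 : ℝ)) = q ^ 2 := by
    rw [Finset.sum_const, Finset.card_univ, Fintype.card_prod, nsmul_eq_mul, hq]
    push_cast; ring
  have hδs : (∑ _t : k × k, δ) = δ * q ^ 2 := by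
    rw [← hcardt, Finset.mul_sum, mul_one]
  have htr : ∀ t m, (fam U R t).Separable → (trc (fam U R t) m : ℝ) = -(T (fam U R t) (m + 1) : ℝ) - δ := by
    intro t m hs
    unfold trc
    rw [if_pos hs, (hfd t).2, hδ]
    push_cast; ring
  have htr0 : ∀ t ∈ Bad, ∀ m, (trc (fam U R t) m : ℝ) = 0 := by
    intro t ht m
    unfold trc
    rw [if_neg (Finset.mem_filter.1 ht).2, Int.cast_zero]
  have hcast : (((r + dlt d : ℕ) : ℕ) : ℝ) = r + δ := by rw [hδ]; push_cast; ring
  rw [← hQ, ← hq, hcast]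
  have h2d0 : (0 : ℝ) ≤ 2 ^ d := by positivity
  refine ⟨?_, ?_, ?_⟩
  · have e1 := hsplit (fun t => (trc (fam U R t) 0 : ℝ)) (fun t => -(T (fam U R t) 1 : ℝ) - δ) (fun t hs => htr t 0 hs)
    have e2 : ∑ t : k × k, (-(T (fam U R t) 1 : ℝ) - δ) = -(r * q ^ 2) - δ * q ^ 2 := by
      rw [Finset.sum_sub_distrib, Finset.sum_neg_distrib, hS1, hδs]
    rw [e2] at e1
    have e3 := sum_bad_le Bad Sq (fun t => (trc (fam U R t) 0 : ℝ) - (-(T (fam U R t) 1 : ℝ) - δ)) ((5 * d + 1) * Q) (2 * q) (2 * d * q) (2 ^ d)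
      (by positivity) (by positivity) hBadc hSqc (fun t ht hs => by
        rw [htr0 t ht]
        have := abs_le.1 (hb1 t hs)
        rw [abs_le]
        constructor
        · linarith [this.1]
        · have h4 : (5 * (d : ℝ) + 1) * Q = 5 * d * Q + Q := by ring
          linarith [this.2]) (fun t ht => by
        by_cases hs : (fam U R t).Separable
        · exact absurd (Finset.mem_filter.1 ht).2 (not_csq_of_sep hs (hd1 t))
        · rw [htr0 t (Finset.mem_filter.2 ⟨Finset.mem_univ _, hs⟩)]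
          have := abs_le.1 (hc1 t)
          rw [abs_le]
          constructor <;> linarith [this.1, this.2])
    have e4 : (∑ t : k × k, (trc (fam U R t) 0 : ℝ)) / q ^ 2 + (r + δ) =
        (∑ t ∈ Bad, ((trc (fam U R t) 0 : ℝ) - (-(T (fam U R t) 1 : ℝ) - δ))) / q ^ 2 := by
      rw [e1]
      field_simp
      ring
    rw [e4, abs_div, abs_of_pos (by positivity : (0 : ℝ) < q ^ 2), div_le_div_iff₀ (by positivity) hQ0]
    have e5 : (2 * d * q * ((5 * d + 1) * Q) + 2 ^ d * (2 * q)) * Q ≤ C1 d * q ^ 2 := by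
      have e6 : 2 * d * q * ((5 * d + 1) * Q) * Q = 2 * d * (5 * d + 1) * q ^ 2 := by
        have : Q * Q = q := hQQ
        linear_combination 2 * (d : ℝ) * q * (5 * d + 1) * this
      have e7 : 2 ^ d * (2 * q) * Q ≤ 2 ^ d * 2 * q ^ 2 := by
        have : q * Q ≤ q * q := mul_le_mul_of_nonneg_left hQq hq0.le
        calc (2 : ℝ) ^ d * (2 * q) * Q = 2 ^ d * 2 * (q * Q) := by ring
          _ ≤ 2 ^ d * 2 * (q * q) := by gcongr
          _ = _ := by ring
      have e8 : C1 d * q ^ 2 = 2 * d * (5 * d + 1) * q ^ 2 + 2 ^ d * 2 * q ^ 2 +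
          (2 * d * ((d + 1) ^ 2 + (6 * d) ^ 2) + 2 ^ d * ((d + 1) ^ 2 + (d + 1) ^ 2) + 2 * d + 4) * q ^ 2 := by
        unfold C1; ring
      have e9 : 0 ≤ (2 * (d : ℝ) * ((d + 1) ^ 2 + (6 * d) ^ 2) + 2 ^ d * ((d + 1) ^ 2 + (d + 1) ^ 2) + 2 * d + 4) * q ^ 2 := by positivity
      rw [add_mul, e6, e8]
      linarith
    exact (mul_le_mul_of_nonneg_right e3 hQ0.le).trans e5
  · have e1 := hsplit (fun t => ((trc (fam U R t) 0 : ℝ) + (r + δ)) ^ 2) (fun t => ((T (fam U R t) 1 : ℝ) - r) ^ 2) (fun t hs => by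
      rw [htr t 0 hs, zero_add]
      ring)
    have e2 : ∑ t : k × k, ((T (fam U R t) 1 : ℝ) - r) ^ 2 = (q - r) * (q ^ 2 - q) := by
      have e3 : ∀ t : k × k, ((T (fam U R t) 1 : ℝ) - r) ^ 2 = (T (fam U R t) 1 : ℝ) ^ 2 - 2 * r * (T (fam U R t) 1 : ℝ) + r ^ 2 * 1 := by
        intro t; ring
      rw [Finset.sum_congr rfl fun t _ => e3 t, Finset.sum_add_distrib, Finset.sum_sub_distrib, hS2, ← Finset.mul_sum,
        ← Finset.mul_sum, hS1, hcardt]
      ring
    rw [e2] at e1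
    have hrd1 : r + δ ≤ d + 1 := by linarith
    have e3 := sum_bad_le Bad Sq (fun t => ((trc (fam U R t) 0 : ℝ) + (r + δ)) ^ 2 - ((T (fam U R t) 1 : ℝ) - r) ^ 2)
      (((d + 1) ^ 2 + (6 * d) ^ 2) * q) (((d + 1) ^ 2 + (d + 1) ^ 2) * q ^ 2) (2 * d * q) (2 ^ d)
      (by positivity) (by positivity) hBadc hSqc (fun t ht hs => by
        rw [htr0 t ht, zero_add]
        have h4 : |(T (fam U R t) 1 : ℝ) - r| ≤ 6 * d * Q := by
          refine (abs_sub _ _).trans ?_
          rw [abs_of_nonneg hr0]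
          have h5 : (r : ℝ) ≤ d * Q := hrd.trans (le_mul_of_one_le_right hd0 hQ1)
          linarith [hb1 t hs]
        have h6 : ((T (fam U R t) 1 : ℝ) - r) ^ 2 ≤ (6 * d) ^ 2 * q := by
          rw [← sq_abs]
          calc |(T (fam U R t) 1 : ℝ) - r| ^ 2 ≤ (6 * d * Q) ^ 2 := pow_le_pow_left₀ (abs_nonneg _) h4 2
            _ = (6 * d) ^ 2 * q := by rw [← hQQ]; ring
        have h7 : (r + δ) ^ 2 ≤ (d + 1) ^ 2 * q := by
          calc (r + δ) ^ 2 ≤ (d + 1) ^ 2 := pow_le_pow_left₀ (by positivity) hrd1 2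
            _ ≤ (d + 1) ^ 2 * q := le_mul_of_one_le_right (by positivity) hq1
        rw [abs_le]
        have h8 : 0 ≤ (r + δ) ^ 2 := by positivity
        have h9 : 0 ≤ ((T (fam U R t) 1 : ℝ) - r) ^ 2 := by positivity
        constructor
        · rw [add_mul]; linarith
        · rw [add_mul]; linarith) (fun t ht => by
        by_cases hs : (fam U R t).Separable
        · exact absurd (Finset.mem_filter.1 ht).2 (not_csq_of_sep hs (hd1 t))
        · rw [htr0 t (Finset.mem_filter.2 ⟨Finset.mem_univ _, hs⟩), zero_add]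
          have h4 : |(T (fam U R t) 1 : ℝ) - r| ≤ (d + 1) * q := by
            refine (abs_sub _ _).trans ?_
            rw [abs_of_nonneg hr0]
            have h5 : (r : ℝ) ≤ d * q := hrd.trans (le_mul_of_one_le_right hd0 hq1)
            have h10 : ((d : ℝ) + 1) * q = d * q + q := by ring
            linarith [hc1 t]
          have h6 : ((T (fam U R t) 1 : ℝ) - r) ^ 2 ≤ (d + 1) ^ 2 * q ^ 2 := by
            rw [← sq_abs]
            calc |(T (fam U R t) 1 : ℝ) - r| ^ 2 ≤ ((d + 1) * q) ^ 2 := pow_le_pow_left₀ (abs_nonneg _) h4 2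
              _ = (d + 1) ^ 2 * q ^ 2 := by ring
          have h7 : (r + δ) ^ 2 ≤ (d + 1) ^ 2 * q ^ 2 := by
            calc (r + δ) ^ 2 ≤ (d + 1) ^ 2 := pow_le_pow_left₀ (by positivity) hrd1 2
              _ ≤ (d + 1) ^ 2 * q ^ 2 := le_mul_of_one_le_right (by positivity) (one_le_pow₀ hq1)
          rw [abs_le]
          have h8 : 0 ≤ (r + δ) ^ 2 := by positivity
          have h9 : 0 ≤ ((T (fam U R t) 1 : ℝ) - r) ^ 2 := by positivity
          constructor
          · rw [add_mul]; linarith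
          · rw [add_mul]; linarith)
    have e4 : (∑ t : k × k, ((trc (fam U R t) 0 : ℝ) + (r + δ)) ^ 2) / q ^ 2 - q =
        (-q ^ 2 - r * q ^ 2 + r * q + ∑ t ∈ Bad, (((trc (fam U R t) 0 : ℝ) + (r + δ)) ^ 2 - ((T (fam U R t) 1 : ℝ) - r) ^ 2)) / q ^ 2 := by
      rw [e1]
      field_simp
      ring
    rw [e4, abs_div, abs_of_pos (by positivity : (0 : ℝ) < q ^ 2), div_le_iff₀ (by positivity)]
    have e5 : |-q ^ 2 - r * q ^ 2 + r * q| ≤ (1 + d) * q ^ 2 := by
      rw [abs_le]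
      have h10 : r * q ≤ r * q ^ 2 := by
        have : q ≤ q ^ 2 := by rw [sq]; exact le_mul_of_one_le_left hq0.le hq1
        exact mul_le_mul_of_nonneg_left this hr0
      have h11 : r * q ^ 2 ≤ d * q ^ 2 := mul_le_mul_of_nonneg_right hrd (by positivity)
      have h12 : 0 ≤ r * q := by positivity
      have h13 : 0 ≤ q ^ 2 := by positivity
      have h14 : (1 + (d : ℝ)) * q ^ 2 = q ^ 2 + d * q ^ 2 := by ring
      constructor <;> linarith
    refine (abs_add_le _ _).trans ((add_le_add e5 e3).trans ?_)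
    have e8 : C1 d * q ^ 2 = (1 + d) * q ^ 2 + (2 * d * q * (((d + 1) ^ 2 + (6 * d) ^ 2) * q) + 2 ^ d * (((d + 1) ^ 2 + (d + 1) ^ 2) * q ^ 2)) +
        (2 * d * (5 * d + 1) + 2 ^ d * 2 + d + 3) * q ^ 2 := by
      unfold C1; ring
    have e9 : 0 ≤ (2 * (d : ℝ) * (5 * d + 1) + 2 ^ d * 2 + d + 3) * q ^ 2 := by positivity
    have e10 : C1 d * q ^ 2 ≤ C1 d * Q * q ^ 2 := by
      have : C1 d ≤ C1 d * Q := le_mul_of_one_le_right (C1_nonneg d) hQ1
      exact mul_le_mul_of_nonneg_right this (by positivity)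
    linarith
  · have e1 := hsplit (fun t => (trc (fam U R t) 1 : ℝ)) (fun t => -(T (fam U R t) 2 : ℝ) - δ) (fun t hs => htr t 1 hs)
    have e2 : ∑ t : k × k, (-(T (fam U R t) 2 : ℝ) - δ) = -(r * q ^ 2 + (q - r) * (q ^ 2 - q)) - δ * q ^ 2 := by
      rw [Finset.sum_sub_distrib, Finset.sum_neg_distrib, hS3, hδs]
    rw [e2] at e1
    have e3 := sum_bad_le Bad Sq (fun t => (trc (fam U R t) 1 : ℝ) - (-(T (fam U R t) 2 : ℝ) - δ)) ((5 * d + 1) * q) (2 * q ^ 2) (2 * d * q) (2 ^ d)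
      (by positivity) (by positivity) hBadc hSqc (fun t ht hs => by
        rw [htr0 t ht]
        have := abs_le.1 (hb2 t hs)
        have h4 : (5 * (d : ℝ) + 1) * q = 5 * d * q + q := by ring
        rw [abs_le]
        constructor <;> linarith [this.1, this.2]) (fun t ht => by
        by_cases hs : (fam U R t).Separable
        · exact absurd (Finset.mem_filter.1 ht).2 (not_csq_of_sep hs (hd1 t))
        · rw [htr0 t (Finset.mem_filter.2 ⟨Finset.mem_univ _, hs⟩)]
          have := abs_le.1 (hc2 t)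
          have h5 : 1 ≤ q ^ 2 := one_le_pow₀ hq1
          rw [abs_le]
          constructor <;> linarith [this.1, this.2])
    have e4 : (∑ t : k × k, (trc (fam U R t) 1 : ℝ)) / q ^ 2 + q =
        ((1 - δ) * q ^ 2 - r * q + ∑ t ∈ Bad, ((trc (fam U R t) 1 : ℝ) - (-(T (fam U R t) 2 : ℝ) - δ))) / q ^ 2 := by
      rw [e1]
      field_simp
      ring
    rw [e4, abs_div, abs_of_pos (by positivity : (0 : ℝ) < q ^ 2), div_le_iff₀ (by positivity)]
    have e5 : |(1 - δ) * q ^ 2 - r * q| ≤ (1 + d) * q ^ 2 := by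
      rw [abs_le]
      have h10 : r * q ≤ r * q ^ 2 := by
        have : q ≤ q ^ 2 := by rw [sq]; exact le_mul_of_one_le_left hq0.le hq1
        exact mul_le_mul_of_nonneg_left this hr0
      have h11 : r * q ^ 2 ≤ d * q ^ 2 := mul_le_mul_of_nonneg_right hrd (by positivity)
      have h12 : 0 ≤ r * q := by positivity
      have h13 : 0 ≤ q ^ 2 := by positivity
      have h14 : (1 + (d : ℝ)) * q ^ 2 = q ^ 2 + d * q ^ 2 := by ring
      have h15 : 0 ≤ (1 - δ) * q ^ 2 := mul_nonneg (by linarith) h13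
      have h16 : (1 - δ) * q ^ 2 ≤ 1 * q ^ 2 := mul_le_mul_of_nonneg_right (by linarith) h13
      have h17 : 0 ≤ d * q ^ 2 := by positivity
      constructor <;> linarith
    refine (abs_add_le _ _).trans ((add_le_add e5 e3).trans ?_)
    have e8 : C1 d * q ^ 2 = (1 + d) * q ^ 2 + (2 * d * q * ((5 * d + 1) * q) + 2 ^ d * (2 * q ^ 2)) +
        (2 * d * ((d + 1) ^ 2 + (6 * d) ^ 2) + 2 ^ d * ((d + 1) ^ 2 + (d + 1) ^ 2) + d + 3) * q ^ 2 := by
      unfold C1; ring
    have e9 : 0 ≤ (2 * (d : ℝ) * ((d + 1) ^ 2 + (6 * d) ^ 2) + 2 ^ d * ((d + 1) ^ 2 + (d + 1) ^ 2) + d + 3) * q ^ 2 := by positivity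
    have e10 : C1 d * q ^ 2 ≤ C1 d * Q * q ^ 2 := by
      have : C1 d ≤ C1 d * Q := le_mul_of_one_le_right (C1_nonneg d) hQ1
      exact mul_le_mul_of_nonneg_right this (by positivity)
    linarith

end

end Run7.h876.EN
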