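import Mathlib

/-!
# Boxes of tuples of integers of a number field and mean values: definitions
-/

set_option autoImplicit false

namespace Run7.h876.EN

open NumberField

section
variable {K : Type} [Field K] [NumberField K]
variable {ι : Type} [Fintype ι] [DecidableEq ι] {J : Type} [Fintype J] [DecidableEq J]

/-- The integer vectors `c` with `|c (j, i)| ≤ H j`. -/
noncomputable def box (ι : Type) [Fintype ι] [DecidableEq ι] (H : J → ℕ) : Finset (J × ι → ℤ) :=
  Fintype.piFinset fun p => Finset.Icc (-(H p.1 : ℤ)) (H p.1)

/-- The tuple of the integers of `K` with the coordinates `c` in the basis `ω`. -/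
noncomputable def tuple (ω : Module.Basis ι ℤ (𝓞 K)) (c : J × ι → ℤ) : J → 𝓞 K :=
  fun j => ∑ i, c (j, i) • ω i

open Classical in
/-- The mean value of `F` over the tuples `t` in `G` such that all coordinates of `t j` have absolute
value at most `H j`. -/
noncomputable def mean (ω : Module.Basis ι ℤ (𝓞 K)) (H : J → ℕ) (G : Set (J → 𝓞 K))
    (F : (J → 𝓞 K) → ℂ) : ℂ :=
  (∑ c ∈ (box ι H).filter fun c => tuple ω c ∈ G, F (tuple ω c)) /
    (((box ι H).filter fun c => tuple ω c ∈ G).card : ℂ)

end

end Run7.h876.EN
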