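import Pool.Agent.Run7.h876.EN.Defs
import Pool.Agent.Run7.h876.MM.Part2

/-!
# The mean of Euler products over boxes of tuples of integers of a number field
-/

set_option autoImplicit false
set_option linter.unusedSectionVars false

namespace Run7.h876.EN

open NumberField IsDedekindDomain Finset Filter Topology
open Run7.h876.MM (nv kv two_le_nv nv_pos bx avg avg_bx card_bx exists_crt tail_bound tail_small tprod_le_exp
  prod_nv_mem norm_avg_le avg_sub' SZ mem_SZ card_SZ growth mult_of)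

section
variable {K : Type} [Field K] [NumberField K]
variable {ι : Type} [Fintype ι] [DecidableEq ι] {J : Type} [Fintype J] [DecidableEq J]
variable (ω : Module.Basis ι ℤ (𝓞 K))

theorem box_eq (H : J → ℕ) : box ι H = bx (fun p : J × ι => H p.1) := rfl

/-- reduction of a tuple -/
def rd (v : HeightOneSpectrum (𝓞 K)) (t : J → 𝓞 K) : J → kv v := fun j => Ideal.Quotient.mk v.asIdeal (t j)

variable (S : Finset (HeightOneSpectrum (𝓞 K)))

/-- the residues at the places of `S` -/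
abbrev TS (J : Type) : Type := ∀ v : S, J → kv v.1

/-- the reduction -/
noncomputable def PhiS : (J × ι → ℤ) →+ TS S J where
  toFun c := fun v => rd v.1 (tuple ω c)
  map_zero' := by
    funext v
    funext j
    simp [rd, tuple]
  map_add' c d := by
    funext v
    funext j
    simp only [rd, tuple, Pi.add_apply, add_smul, Finset.sum_add_distrib, map_add]

theorem PhiS_surj : Function.Surjective (PhiS ω S (J := J)) := by
  intro t
  have h1 : ∀ (j : J) (v : S), ∃ a : 𝓞 K, Ideal.Quotient.mk v.1.asIdeal a = t v j := fun j v =>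
    Ideal.Quotient.mk_surjective _
  choose a ha using h1
  have h2 : ∀ j : J, ∃ y : 𝓞 K, ∀ v : S, Ideal.Quotient.mk v.1.asIdeal y = Ideal.Quotient.mk v.1.asIdeal (a j v) :=
    fun j => exists_crt S (a j)
  choose y hy using h2
  refine ⟨fun p => ω.repr (y p.1) p.2, ?_⟩
  funext v
  funext j
  show Ideal.Quotient.mk v.1.asIdeal (∑ i, (ω.repr (y j) i) • ω i) = t v j
  rw [ω.sum_repr, hy, ha]

theorem N_smul (N : ℕ) (hN : ∀ v ∈ S, ((N : ℕ) : 𝓞 K) ∈ v.asIdeal) (t : TS S J) : N • t = 0 := by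
  funext v
  have h1 : ((N : ℕ) : kv v.1) = 0 := by
    have := Ideal.Quotient.eq_zero_iff_mem.2 (hN v.1 v.2)
    rwa [map_natCast] at this
  funext j
  show N • (t v j) = 0
  rw [nsmul_eq_mul, h1, zero_mul]

/-- The mean of a product over the residues at several places. -/
theorem avg_prod (g : ∀ v : HeightOneSpectrum (𝓞 K), (J → kv v) → ℂ) :
    avg (Finset.univ : Finset (TS S J)) (fun t => ∏ v : S, g v.1 (t v)) = ∏ v ∈ S, avg Finset.univ (g v) := by
  rw [← Finset.prod_coe_sort S (fun v => avg Finset.univ (g v))]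
  unfold avg
  rw [Finset.prod_div_distrib]
  congr 1
  · rw [Finset.prod_univ_sum, Fintype.piFinset_univ]
  · rw [Finset.card_univ, Fintype.card_pi]
    push_cast
    rfl

/-- **Independence of the places.** -/
theorem box_prod (N M : ℕ) [NeZero N] (hN : ∀ v ∈ S, ((N : ℕ) : 𝓞 K) ∈ v.asIdeal) (hNM : N ≤ 2 * M + 1)
    (H : J → ℕ) (hH : ∀ j, M ≤ H j) (g : ∀ v : HeightOneSpectrum (𝓞 K), (J → kv v) → ℂ)
    (b : HeightOneSpectrum (𝓞 K) → ℝ) (hg : ∀ v ∈ S, ∀ t, ‖g v t‖ ≤ b v) :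
    ‖avg (box ι H) (fun c => ∏ v ∈ S, g v (rd v (tuple ω c))) - ∏ v ∈ S, avg Finset.univ (g v)‖ ≤
      2 ^ Fintype.card (J × ι) * ((N : ℝ) / (2 * M + 1)) * ∏ v ∈ S, b v := by
  classical
  have h1 := avg_bx (PhiS ω S) (PhiS_surj ω S) N M (N_smul S N hN) hNM (fun p : J × ι => H p.1) (fun p => hH p.1)
    (fun t => ∏ v : S, g v.1 (t v)) (∏ v ∈ S, b v) (fun t => by
      rw [norm_prod, ← Finset.prod_coe_sort S b]
      exact Finset.prod_le_prod (fun _ _ => norm_nonneg _) fun v _ => hg v.1 v.2 _)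
  rw [avg_prod] at h1
  have e : (fun c : J × ι → ℤ => ∏ v : S, g v.1 ((PhiS ω S c) v)) = fun c => ∏ v ∈ S, g v (rd v (tuple ω c)) := by
    funext c
    rw [← Finset.prod_coe_sort S (fun v => g v (rd v (tuple ω c)))]
    rfl
  rw [e] at h1
  exact h1

theorem core (M : ℕ) (H : J → ℕ) (hH : ∀ j, M ≤ H j) (hN : (∏ v ∈ S, nv v) ≤ 2 * M + 1)
    (f : (J → 𝓞 K) → ℂ) (η : ℝ) (g : ∀ v : HeightOneSpectrum (𝓞 K), (J → kv v) → ℂ)
    (hη : ∀ t, ‖f t - ∏ v ∈ S, g v (rd v t)‖ ≤ η)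
    (b : HeightOneSpectrum (𝓞 K) → ℝ) (hg : ∀ v ∈ S, ∀ t, ‖g v t‖ ≤ b v) :
    ‖avg (box ι H) (fun c => f (tuple ω c)) - ∏ v ∈ S, avg Finset.univ (g v)‖ ≤
      η + 2 ^ Fintype.card (J × ι) * (((∏ v ∈ S, nv v : ℕ) : ℝ) / (2 * M + 1)) * ∏ v ∈ S, b v := by
  classical
  have hη0 : 0 ≤ η := (norm_nonneg _).trans (hη 0)
  haveI : NeZero (∏ v ∈ S, nv v) := ⟨Finset.prod_ne_zero_iff.2 fun v _ => by have := two_le_nv v; omega⟩
  have h2 : ‖avg (box ι H) (fun c => f (tuple ω c)) -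
      avg (box ι H) (fun c => ∏ v ∈ S, g v (rd v (tuple ω c)))‖ ≤ η := by
    rw [avg_sub']
    exact norm_avg_le _ _ _ hη0 fun c _ => hη _
  have h3 := box_prod ω S (∏ v ∈ S, nv v) M (prod_nv_mem S) hN H hH g b hg
  have e : avg (box ι H) (fun c => f (tuple ω c)) - ∏ v ∈ S, avg Finset.univ (g v) =
      (avg (box ι H) (fun c => f (tuple ω c)) -
        avg (box ι H) (fun c => ∏ v ∈ S, g v (rd v (tuple ω c)))) +
      (avg (box ι H) (fun c => ∏ v ∈ S, g v (rd v (tuple ω c))) - ∏ v ∈ S, avg Finset.univ (g v)) := by ring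
  rw [e]
  exact (norm_add_le _ _).trans (add_le_add h2 h3)

/-- **The mean of an absolutely convergent Euler product.** -/
theorem engineA {P : Type*} (u : HeightOneSpectrum (𝓞 K) → ℝ) (hu : Summable u)
    (g : ∀ v : HeightOneSpectrum (𝓞 K), P → (J → kv v) → ℂ) (hg : ∀ v p t, ‖g v p t - 1‖ ≤ u v)
    {ε : ℝ} (hε : 0 < ε) :
    ∃ M : ℕ, ∀ H : J → ℕ, (∀ j, M ≤ H j) → ∀ p : P,
      ‖avg (box ι H) (fun c => ∏' v, g v p (rd v (tuple ω c))) - ∏' v, avg Finset.univ (g v p)‖ ≤ ε := by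
  classical
  obtain ⟨S, hS⟩ := tail_small hu (ε := ε / 4) (by linarith)
  have hS' := hS S subset_rfl
  set N : ℕ := ∏ v ∈ S, nv v with hN
  set Q : ℝ := ∏ v ∈ S, (1 + |u v|) with hQ
  set c : ℝ := 2 ^ Fintype.card (J × ι) with hc
  have hQ0 : 0 ≤ Q := Finset.prod_nonneg fun v _ => by positivity
  obtain ⟨M, hM⟩ := exists_nat_ge (max (N : ℝ) (c * N * Q / (ε / 4)))
  have hM1 : (N : ℝ) ≤ M := (le_max_left _ _).trans hM
  have hM3 : c * N * Q / (ε / 4) ≤ M := (le_max_right _ _).trans hM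
  have hNM : N ≤ M := by exact_mod_cast hM1
  refine ⟨M, fun H hH p => ?_⟩
  have havg : ∀ v, ‖avg Finset.univ (g v p) - 1‖ ≤ u v := fun v =>
    Run7.h876.MM.avg_sub_one_le _ ⟨0, Finset.mem_univ _⟩ _ _ fun t _ => hg v p t
  have htail := tail_bound hu havg S
  have hcore := core ω S M H hH (by omega) (fun t => ∏' v, g v p (rd v t)) (ε / 4) (fun v => g v p)
    (fun t => (tail_bound hu (fun v => hg v p _) S).trans hS'.le)
    (fun v => 1 + |u v|)
    (fun v _ t => by
      have h1 := hg v p t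
      have h2 := norm_add_le (g v p t - 1) 1
      rw [sub_add_cancel, norm_one] at h2
      linarith [le_abs_self (u v)])
  have hMp : (0 : ℝ) < 2 * M + 1 := by positivity
  have h2 : c * ((N : ℝ) / (2 * M + 1)) * Q ≤ ε / 4 := by
    have e : c * ((N : ℝ) / (2 * M + 1)) * Q = c * N * Q / (2 * M + 1) := by ring
    rw [e, div_le_iff₀ hMp]
    rw [div_le_iff₀ (by linarith)] at hM3
    nlinarith
  have e : avg (box ι H) (fun c => ∏' v, g v p (rd v (tuple ω c))) - ∏' v, avg Finset.univ (g v p) =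
      (avg (box ι H) (fun c => ∏' v, g v p (rd v (tuple ω c))) - ∏ v ∈ S, avg Finset.univ (g v p)) -
      (∏' v, avg Finset.univ (g v p) - ∏ v ∈ S, avg Finset.univ (g v p)) := by ring
  rw [e]
  refine (norm_sub_le _ _).trans ?_
  have h3 : ‖avg (box ι H) (fun c => ∏' v, g v p (rd v (tuple ω c))) - ∏ v ∈ S, avg Finset.univ (g v p)‖ ≤
      ε / 4 + c * ((N : ℝ) / (2 * M + 1)) * Q := hcore
  linarith [hS'.le]

/-- **The mean of partial products past the edge of convergence.** -/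
theorem engineB {P : Type*} (u : HeightOneSpectrum (𝓞 K) → ℝ) (hu : Summable u)
    (g : ∀ v : HeightOneSpectrum (𝓞 K), P → (J → kv v) → ℂ) {D : ℝ} (hD1 : 1 ≤ D)
    (hgD : ∀ v p t, ‖g v p t‖ ≤ D) (havg : ∀ v p, ‖avg Finset.univ (g v p) - 1‖ ≤ u v)
    {θ ε : ℝ} (hθ : 0 < θ) (hε : 0 < ε) :
    ∃ Z₀ : ℕ, ∀ Z : ℕ, Z₀ ≤ Z → ∀ H : J → ℕ, (∀ j, Real.exp ((Z : ℝ) ^ (1 + θ)) ≤ H j) → ∀ p : P,
      ‖avg (box ι H) (fun c => ∏ v ∈ SZ K Z, g v p (rd v (tuple ω c))) - ∏' v, avg Finset.univ (g v p)‖ ≤ ε := by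
  classical
  obtain ⟨S₀, hS₀⟩ := tail_small hu (ε := ε / 2) (by linarith)
  set c : ℝ := 2 ^ Fintype.card (J × ι) with hc
  have hc0 : 0 < c := by positivity
  set C₀ : ℝ := max 0 (Real.log (c / (ε / 2))) with hC₀
  have hC₀0 : 0 ≤ C₀ := le_max_left _ _
  have hC₀1 : c * Real.exp (-C₀) ≤ ε / 2 := by
    have h1 : Real.log (c / (ε / 2)) ≤ C₀ := le_max_right _ _
    have h2 : c / (ε / 2) ≤ Real.exp C₀ := by
      rw [← Real.log_le_iff_le_exp (by positivity)]
      exact h1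
    rw [div_le_iff₀ (by linarith)] at h2
    rw [Real.exp_neg, ← div_eq_mul_inv, div_le_iff₀ (Real.exp_pos _)]
    linarith
  obtain ⟨T, hT0, hT⟩ := card_SZ K (θ := θ / 2) (by linarith)
  have hgr := (growth (θ := θ) (T := T) (D := D) (C₀ := C₀) hθ hD1)
  obtain ⟨x₀, hx₀⟩ := Filter.eventually_atTop.1 hgr
  refine ⟨max (⌈x₀⌉₊) (max 1 (S₀.sup nv)), fun Z hZ H hH p => ?_⟩
  have hZ1 : 1 ≤ Z := ((le_max_left 1 (S₀.sup nv)).trans (le_max_right _ _)).trans hZ
  have hZ2 : x₀ ≤ (Z : ℝ) := (Nat.le_ceil x₀).trans (by exact_mod_cast (le_max_left _ _).trans hZ)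
  have hZ3 : S₀ ⊆ SZ K Z := by
    intro v hv
    rw [mem_SZ]
    exact (Finset.le_sup (f := nv) hv).trans (((le_max_right 1 (S₀.sup nv)).trans (le_max_right _ _)).trans hZ)
  have hZr : (1 : ℝ) ≤ Z := by exact_mod_cast hZ1
  have hgrow := hx₀ Z hZ2
  set S := SZ K Z with hS
  set M : ℕ := ⌈Real.exp ((Z : ℝ) ^ (1 + θ))⌉₊ with hM
  have hM1 : Real.exp ((Z : ℝ) ^ (1 + θ)) ≤ M := Nat.le_ceil _
  have hMH : ∀ j, M ≤ H j := fun j => Nat.ceil_le.2 (hH j)
  set N : ℕ := ∏ v ∈ S, nv v with hN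
  have hNle : (N : ℝ) ≤ (Z : ℝ) ^ S.card := by
    rw [hN]
    push_cast
    rw [← Finset.prod_const]
    exact Finset.prod_le_prod (fun _ _ => by positivity) fun v hv => by exact_mod_cast mem_SZ.1 hv
  have hmain : (N : ℝ) * D ^ S.card ≤ Real.exp (-C₀) * M := by
    have hZD : 1 ≤ (Z : ℝ) * D := by nlinarith
    have hZD0 : 0 < (Z : ℝ) * D := by linarith
    calc (N : ℝ) * D ^ S.card ≤ (Z : ℝ) ^ S.card * D ^ S.card := by gcongr
      _ = ((Z : ℝ) * D) ^ S.card := (mul_pow _ _ _).symm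
      _ = Real.exp (S.card * Real.log (Z * D)) := by
        rw [← Real.rpow_natCast, Real.rpow_def_of_pos hZD0, mul_comm]
      _ ≤ Real.exp ((Z : ℝ) ^ (1 + θ) - C₀) := by
        refine Real.exp_le_exp.2 ?_
        have h1 : (S.card : ℝ) * Real.log (Z * D) ≤ T * (Z : ℝ) ^ (1 + θ / 2) * Real.log (Z * D) :=
          mul_le_mul_of_nonneg_right (hT Z hZ1) (Real.log_nonneg hZD)
        linarith
      _ = Real.exp (-C₀) * Real.exp ((Z : ℝ) ^ (1 + θ)) := by rw [← Real.exp_add]; congr 1; ring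
      _ ≤ Real.exp (-C₀) * M := by gcongr
  have hexp1 : Real.exp (-C₀) ≤ 1 := Real.exp_le_one_iff.2 (by linarith)
  have hDc : 1 ≤ D ^ S.card := one_le_pow₀ hD1
  have hNM : N ≤ 2 * M + 1 := by
    have : (N : ℝ) ≤ M := by
      calc (N : ℝ) ≤ N * D ^ S.card := le_mul_of_one_le_right (by positivity) hDc
        _ ≤ Real.exp (-C₀) * M := hmain
        _ ≤ M := mul_le_of_le_one_left (by positivity) hexp1
    have h2 : N ≤ M := by exact_mod_cast this
    omega
  have hcore := core ω S M H hMH hNM (fun t => ∏ v ∈ S, g v p (rd v t)) 0 (fun v => g v p)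
    (fun t => by rw [sub_self, norm_zero]) (fun _ => D) (fun v _ t => hgD v p t)
  rw [Finset.prod_const] at hcore
  have htail : ‖∏' v, avg Finset.univ (g v p) - ∏ v ∈ S, avg Finset.univ (g v p)‖ ≤ ε / 2 :=
    (tail_bound hu (fun v => havg v p) S).trans (hS₀ S hZ3).le
  have e : avg (box ι H) (fun c => ∏ v ∈ S, g v p (rd v (tuple ω c))) - ∏' v, avg Finset.univ (g v p) =
      (avg (box ι H) (fun c => ∏ v ∈ S, g v p (rd v (tuple ω c))) - ∏ v ∈ S, avg Finset.univ (g v p)) -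
      (∏' v, avg Finset.univ (g v p) - ∏ v ∈ S, avg Finset.univ (g v p)) := by ring
  rw [e]
  refine (norm_sub_le _ _).trans ?_
  have hMp : (0 : ℝ) < 2 * M + 1 := by positivity
  have h2 : c * ((N : ℝ) / (2 * M + 1)) * D ^ S.card ≤ c * Real.exp (-C₀) := by
    have e : c * ((N : ℝ) / (2 * M + 1)) * D ^ S.card = c * ((N : ℝ) * D ^ S.card / (2 * M + 1)) := by ring
    rw [e]
    refine mul_le_mul_of_nonneg_left ?_ hc0.le
    rw [div_le_iff₀ hMp]
    have h4 := Real.exp_pos (-C₀)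
    nlinarith
  linarith [hcore]

end

/-! ### restriction to a large subset -/

section
variable {α : Type*}

open Classical in
/-- The mean over a large subset. -/
theorem avg_filter_close (B : Finset α) (G : α → Prop) (f : α → ℂ) (b : ℝ) (hb0 : 0 ≤ b) (hb : ∀ c, ‖f c‖ ≤ b) :
    ‖avg (B.filter G) f - avg B f‖ ≤ 2 * b * (((B.filter fun c => ¬ G c).card : ℝ) / B.card) := by
  rcases B.eq_empty_or_nonempty with h | h
  · subst h
    simp [avg]
  have hB : (0 : ℝ) < B.card := by exact_mod_cast h.card_pos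
  set n : ℝ := ((B.filter G).card : ℝ) with hn
  set m : ℝ := ((B.filter fun c => ¬ G c).card : ℝ) with hm
  have hnm : n + m = B.card := by
    rw [hn, hm]
    exact_mod_cast Finset.card_filter_add_card_filter_not (s := B) G
  have hm0 : 0 ≤ m := by positivity
  by_cases hn0 : (B.filter G).card = 0
  · have e : avg (B.filter G) f = 0 := by
      unfold avg
      rw [hn0]
      simp
    have hn00 : n = 0 := by rw [hn, hn0]; simp
    rw [e, zero_sub, norm_neg]
    have h1 := norm_avg_le B f b hb0 fun c _ => hb c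
    have h2 : m / B.card = 1 := by
      rw [← hnm, hn00, zero_add]
      refine div_self ?_
      have : m = B.card := by linarith
      rw [this]; exact hB.ne'
    rw [h2]
    linarith
  · have hnpos : 0 < n := by
      rw [hn]; exact_mod_cast Nat.pos_of_ne_zero hn0
    have hsum : ∑ c ∈ B, f c = ∑ c ∈ B.filter G, f c + ∑ c ∈ B.filter (fun c => ¬ G c), f c :=
      (Finset.sum_filter_add_sum_filter_not B G f).symm
    have e : avg (B.filter G) f - avg B f = ((∑ c ∈ B.filter G, f c) * (m : ℂ) / ((n : ℂ) * B.card)) -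
        (∑ c ∈ B.filter (fun c => ¬ G c), f c) / B.card := by
      unfold avg
      rw [hsum]
      have h1 : ((B.card : ℕ) : ℂ) = (n : ℂ) + (m : ℂ) := by
        rw [← Complex.ofReal_add, hnm]; simp
      have h2 : (((B.filter G).card : ℕ) : ℂ) = (n : ℂ) := by rw [hn]; simp
      have h3 : (n : ℂ) ≠ 0 := by exact_mod_cast hnpos.ne'
      have h4 : (n : ℂ) + (m : ℂ) ≠ 0 := by
        rw [← Complex.ofReal_add, hnm]; exact_mod_cast hB.ne'
      rw [h1, h2]
      field_simp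
      ring
    rw [e]
    refine (norm_sub_le _ _).trans ?_
    have h1 : ‖∑ c ∈ B.filter G, f c‖ ≤ n * b := by
      refine (norm_sum_le _ _).trans ((Finset.sum_le_sum fun c _ => hb c).trans ?_)
      rw [Finset.sum_const, nsmul_eq_mul]
    have h2 : ‖∑ c ∈ B.filter (fun c => ¬ G c), f c‖ ≤ m * b := by
      refine (norm_sum_le _ _).trans ((Finset.sum_le_sum fun c _ => hb c).trans ?_)
      rw [Finset.sum_const, nsmul_eq_mul]
    rw [norm_div, norm_div, norm_mul, norm_mul, Complex.norm_real, Complex.norm_real, Complex.norm_natCast,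
      Real.norm_of_nonneg hm0, Real.norm_of_nonneg hnpos.le]
    have h3 : ‖∑ c ∈ B.filter G, f c‖ * m / (n * B.card) ≤ b * (m / B.card) := by
      rw [div_le_iff₀ (by positivity)]
      have : b * (m / B.card) * (n * B.card) = (n * b) * m := by field_simp
      rw [this]
      exact mul_le_mul_of_nonneg_right h1 hm0
    have h4 : ‖∑ c ∈ B.filter (fun c => ¬ G c), f c‖ / B.card ≤ b * (m / B.card) := by
      rw [div_le_iff₀ hB]
      have : b * (m / B.card) * B.card = m * b := by field_simp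
      rw [this]
      exact h2
    linarith

end

end Run7.h876.EN
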