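import Pool.Agent.Run7.h876.EN.Eng

/-!
# Mean values over the members outside of a thin set
-/

set_option autoImplicit false
set_option linter.unusedSectionVars false

namespace Run7.h876.EN

open NumberField IsDedekindDomain Finset Filter Topology
open Run7.h876.MM (nv kv two_le_nv nv_pos bx avg avg_bx card_bx exists_crt tail_bound tail_small tprod_le_exp
  prod_nv_mem norm_avg_le avg_sub' SZ mem_SZ card_SZ growth mult_of)

section
variable {K : Type} [Field K] [NumberField K]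
variable {ι : Type} [Fintype ι] [DecidableEq ι] {J : Type} [Fintype J] [DecidableEq J]
variable (ω : Module.Basis ι ℤ (𝓞 K))

open Classical in
/-- The complement of `G` is thin. -/
def Thin (G : Set (J → 𝓞 K)) (Cb : ℝ) : Prop :=
  ∀ (H : J → ℕ) (M : ℕ), (∀ j, M ≤ H j) →
    ((((box ι H).filter fun c => ¬ (tuple ω c ∈ G)).card : ℕ) : ℝ) * (2 * M + 1) ≤ Cb * (box ι H).card

theorem card_box_pos (H : J → ℕ) : 0 < (box ι H).card := Run7.h876.MM.card_bx_pos _

theorem mean_close' {G : Set (J → 𝓞 K)} {Cb : ℝ} (hG : Thin ω G Cb) (H : J → ℕ) (M : ℕ) (hH : ∀ j, M ≤ H j)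
    (F : (J → 𝓞 K) → ℂ) (B : ℝ) (hB0 : 0 ≤ B) (hB : ∀ t, ‖F t‖ ≤ B) :
    ‖mean ω H G F - avg (box ι H) (fun c => F (tuple ω c))‖ ≤ 2 * B * (Cb / (2 * M + 1)) := by
  classical
  have h1 := avg_filter_close (box ι H) (fun c => tuple ω c ∈ G) (fun c => F (tuple ω c)) B hB0 fun c => hB _
  have hpos : (0 : ℝ) < (box ι H).card := by exact_mod_cast card_box_pos H
  have h2 := hG H M hH
  have h3 : ((((box ι H).filter fun c => ¬ (tuple ω c ∈ G)).card : ℕ) : ℝ) / (box ι H).card ≤ Cb / (2 * M + 1) := by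
    rw [div_le_div_iff₀ hpos (by positivity)]
    exact h2
  exact h1.trans (mul_le_mul_of_nonneg_left h3 (by positivity))

/-- **The mean of an absolutely convergent Euler product.** -/
theorem meanA {P : Type*} {G : Set (J → 𝓞 K)} {Cb : ℝ} (hG : Thin ω G Cb) (u : HeightOneSpectrum (𝓞 K) → ℝ) (hu : Summable u)
    (g : ∀ v : HeightOneSpectrum (𝓞 K), P → (J → kv v) → ℂ) (hg : ∀ v p t, ‖g v p t - 1‖ ≤ u v)
    {ε : ℝ} (hε : 0 < ε) :
    ∃ M : ℕ, ∀ H : J → ℕ, (∀ j, M ≤ H j) → ∀ p : P,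
      ‖mean ω H G (fun t => ∏' v, g v p (rd v t)) - ∏' v, avg Finset.univ (g v p)‖ ≤ ε := by
  obtain ⟨M₁, hM₁⟩ := engineA ω u hu g hg (ε := ε / 2) (by linarith)
  set B : ℝ := Real.exp (∑' v, u v) with hB
  have hB0 : 0 < B := Real.exp_pos _
  obtain ⟨M₂, hM₂⟩ := exists_nat_ge (2 * B * Cb / (ε / 2))
  refine ⟨max M₁ M₂, fun H hH p => ?_⟩
  have h1 := hM₁ H (fun j => (le_max_left _ _).trans (hH j)) p
  have h2 := mean_close' ω hG H M₂ (fun j => (le_max_right _ _).trans (hH j)) (fun t => ∏' v, g v p (rd v t)) B hB0.le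
    (fun t => tprod_le_exp hu fun v => hg v p _)
  have h3 : 2 * B * (Cb / (2 * M₂ + 1)) ≤ ε / 2 := by
    have e : 2 * B * (Cb / (2 * M₂ + 1)) = 2 * B * Cb / (2 * M₂ + 1) := by ring
    rw [e, div_le_iff₀ (by positivity)]
    rw [div_le_iff₀ (by linarith)] at hM₂
    have h4 : (0 : ℝ) ≤ M₂ := by positivity
    nlinarith
  have e : mean ω H G (fun t => ∏' v, g v p (rd v t)) - ∏' v, avg Finset.univ (g v p) =
      (mean ω H G (fun t => ∏' v, g v p (rd v t)) - avg (box ι H) (fun c => ∏' v, g v p (rd v (tuple ω c)))) +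
      (avg (box ι H) (fun c => ∏' v, g v p (rd v (tuple ω c))) - ∏' v, avg Finset.univ (g v p)) := by ring
  rw [e]
  refine (norm_add_le _ _).trans ?_
  linarith

variable (K) in
theorem growthD {D : ℝ} (hD : 1 ≤ D) {θ ε : ℝ} (hθ : 0 < θ) (hε : 0 < ε) : ∃ Z₀ : ℕ, ∀ Z : ℕ, Z₀ ≤ Z →
    D ^ (SZ K Z).card ≤ ε * Real.exp ((Z : ℝ) ^ (1 + θ)) := by
  obtain ⟨T, hT0, hT⟩ := card_SZ K (θ := θ / 2) (by linarith)
  have hgr := (growth (θ := θ) (T := T) (D := D) (C₀ := -Real.log ε) hθ hD)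
  obtain ⟨x₀, hx₀⟩ := Filter.eventually_atTop.1 hgr
  refine ⟨max (⌈x₀⌉₊) 1, fun Z hZ => ?_⟩
  have hZ1 : 1 ≤ Z := (le_max_right _ _).trans hZ
  have hZ2 : x₀ ≤ (Z : ℝ) := (Nat.le_ceil x₀).trans (by exact_mod_cast (le_max_left _ _).trans hZ)
  have hZr : (1 : ℝ) ≤ Z := by exact_mod_cast hZ1
  have hgrow := hx₀ Z hZ2
  have hDZ : D ≤ (Z : ℝ) * D := le_mul_of_one_le_left (by linarith) hZr
  have hZD : 1 ≤ (Z : ℝ) * D := hD.trans hDZ
  have hZD0 : 0 < (Z : ℝ) * D := by linarith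
  calc D ^ (SZ K Z).card ≤ ((Z : ℝ) * D) ^ (SZ K Z).card := pow_le_pow_left₀ (by linarith) hDZ _
    _ = Real.exp ((SZ K Z).card * Real.log (Z * D)) := by
      rw [← Real.rpow_natCast, Real.rpow_def_of_pos hZD0, mul_comm]
    _ ≤ Real.exp (Real.log ε + (Z : ℝ) ^ (1 + θ)) := by
      refine Real.exp_le_exp.2 ?_
      have h1 : ((SZ K Z).card : ℝ) * Real.log (Z * D) ≤ T * (Z : ℝ) ^ (1 + θ / 2) * Real.log (Z * D) :=
        mul_le_mul_of_nonneg_right (hT Z hZ1) (Real.log_nonneg hZD)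
      linarith
    _ = ε * Real.exp ((Z : ℝ) ^ (1 + θ)) := by rw [Real.exp_add, Real.exp_log hε]

/-- **The mean of partial products past the edge of convergence.** -/
theorem meanB {P : Type*} {G : Set (J → 𝓞 K)} {Cb : ℝ} (hCb : 0 ≤ Cb) (hG : Thin ω G Cb) (u : HeightOneSpectrum (𝓞 K) → ℝ) (hu : Summable u)
    (g : ∀ v : HeightOneSpectrum (𝓞 K), P → (J → kv v) → ℂ) {D : ℝ} (hD1 : 1 ≤ D)
    (hgD : ∀ v p t, ‖g v p t‖ ≤ D) (havg : ∀ v p, ‖avg Finset.univ (g v p) - 1‖ ≤ u v)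
    {θ ε : ℝ} (hθ : 0 < θ) (hε : 0 < ε) :
    ∃ Z₀ : ℕ, ∀ Z : ℕ, Z₀ ≤ Z → ∀ H : J → ℕ, (∀ j, Real.exp ((Z : ℝ) ^ (1 + θ)) ≤ H j) → ∀ p : P,
      ‖mean ω H G (fun t => ∏ v ∈ SZ K Z, g v p (rd v t)) - ∏' v, avg Finset.univ (g v p)‖ ≤ ε := by
  obtain ⟨Z₁, hZ₁⟩ := engineB ω u hu g hD1 hgD havg hθ (ε := ε / 2) (by linarith)
  obtain ⟨Z₂, hZ₂⟩ := growthD K hD1 hθ (ε := ε / 2 / (Cb + 1)) (by positivity)
  refine ⟨max Z₁ Z₂, fun Z hZ H hH p => ?_⟩
  have h1 := hZ₁ Z ((le_max_left _ _).trans hZ) H hH p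
  have h4 := hZ₂ Z ((le_max_right _ _).trans hZ)
  set M : ℕ := ⌈Real.exp ((Z : ℝ) ^ (1 + θ))⌉₊ with hM
  have hM1 : Real.exp ((Z : ℝ) ^ (1 + θ)) ≤ M := Nat.le_ceil _
  have hMH : ∀ j, M ≤ H j := fun j => Nat.ceil_le.2 (hH j)
  have h2 := mean_close' ω hG H M hMH (fun t => ∏ v ∈ SZ K Z, g v p (rd v t)) (D ^ (SZ K Z).card) (by positivity)
    (fun t => by
      rw [norm_prod, ← Finset.prod_const]
      exact Finset.prod_le_prod (fun _ _ => norm_nonneg _) fun v _ => hgD v p _)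
  have h3 : 2 * D ^ (SZ K Z).card * (Cb / (2 * M + 1)) ≤ ε / 2 := by
    have e : 2 * D ^ (SZ K Z).card * (Cb / (2 * M + 1)) = 2 * D ^ (SZ K Z).card * Cb / (2 * M + 1) := by ring
    rw [e, div_le_iff₀ (by positivity)]
    have h5 : D ^ (SZ K Z).card * (Cb + 1) ≤ ε / 2 * M := by
      calc D ^ (SZ K Z).card * (Cb + 1) ≤ (ε / 2 / (Cb + 1) * Real.exp ((Z : ℝ) ^ (1 + θ))) * (Cb + 1) := by gcongr
        _ = ε / 2 * Real.exp ((Z : ℝ) ^ (1 + θ)) := by field_simp
        _ ≤ ε / 2 * M := by gcongr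
    have h6 : 0 ≤ D ^ (SZ K Z).card := by positivity
    nlinarith
  have e : mean ω H G (fun t => ∏ v ∈ SZ K Z, g v p (rd v t)) - ∏' v, avg Finset.univ (g v p) =
      (mean ω H G (fun t => ∏ v ∈ SZ K Z, g v p (rd v t)) - avg (box ι H) (fun c => ∏ v ∈ SZ K Z, g v p (rd v (tuple ω c)))) +
      (avg (box ι H) (fun c => ∏ v ∈ SZ K Z, g v p (rd v (tuple ω c))) - ∏' v, avg Finset.univ (g v p)) := by ring
  rw [e]
  refine (norm_add_le _ _).trans ?_
  linarith

/-- If for fixed values of the other parameters at most `n` values of the parameter `j₀` are outside of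
`G`, then the complement of `G` is thin. -/
theorem thin_of_fiber [Nonempty ι] (G : Set (J → 𝓞 K)) (j₀ : J) (n : ℕ)
    (h : ∀ (t : J → 𝓞 K) (B : Finset (𝓞 K)), (∀ b ∈ B, Function.update t j₀ b ∉ G) → B.card ≤ n) :
    Thin ω G n := by
  classical
  intro H M hH
  set Bd := (box ι H).filter fun c => ¬ (tuple ω c ∈ G) with hBd
  -- the vectors with the coordinate of `j₀` removed
  set O : Finset (J × ι → ℤ) := Fintype.piFinset fun p => if p.1 = j₀ then {0} else Finset.Icc (-(H p.1 : ℤ)) (H p.1) with hO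
  set π : (J × ι → ℤ) → (J × ι → ℤ) := fun c p => if p.1 = j₀ then 0 else c p with hπ
  have hmap : ∀ c ∈ Bd, π c ∈ O := by
    intro c hc
    rw [hO, Fintype.mem_piFinset]
    intro p
    have hcp := Fintype.mem_piFinset.1 (Finset.mem_filter.1 hc).1 p
    by_cases hp : p.1 = j₀
    · simp [hπ, hp]
    · simp only [hπ, if_neg hp]
      exact hcp
  have hfib : ∀ o ∈ O, (Bd.filter fun c => π c = o).card ≤ n := by
    intro o _
    set S := Bd.filter fun c => π c = o with hS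
    have hinj : Set.InjOn (fun c => tuple ω c j₀) (S : Set (J × ι → ℤ)) := by
      intro c hc c' hc' heq
      have hc1 := (Finset.mem_filter.1 hc).2
      have hc2 := (Finset.mem_filter.1 hc').2
      have heq' : ∑ i, c (j₀, i) • ω i = ∑ i, c' (j₀, i) • ω i := heq
      have hcoord : ∀ i, c (j₀, i) = c' (j₀, i) := by
        intro i
        have h1 := congrArg (fun z => ω.repr z i) heq'
        simp only [map_sum, map_smul, Module.Basis.repr_self, Finsupp.smul_single, smul_eq_mul, mul_one,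
          Finsupp.coe_finsetSum, Finset.sum_apply, Finsupp.single_apply] at h1
        simpa using h1
      funext p
      by_cases hp : p.1 = j₀
      · obtain ⟨p1, p2⟩ := p
        simp only at hp
        subst hp
        exact hcoord p2
      · have h1 := congrFun (hc1.trans hc2.symm) p
        simp only [hπ, if_neg hp] at h1
        exact h1
    rcases S.eq_empty_or_nonempty with hem | ⟨c₀, hc₀⟩
    · rw [hem]; simp
    · have h1 := h (tuple ω c₀) (S.image fun c => tuple ω c j₀) (fun b hb => by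
        obtain ⟨c, hc, rfl⟩ := Finset.mem_image.1 hb
        have hc1 := (Finset.mem_filter.1 hc).2
        have hc2 := (Finset.mem_filter.1 hc₀).2
        have e : Function.update (tuple ω c₀) j₀ (tuple ω c j₀) = tuple ω c := by
          funext j
          by_cases hj : j = j₀
          · subst hj; simp
          · rw [Function.update_of_ne hj]
            unfold tuple
            refine Finset.sum_congr rfl fun i _ => ?_
            have h3 := congrFun (hc1.trans hc2.symm) (j, i)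
            simp only [hπ, if_neg hj] at h3
            rw [h3]
        rw [e]
        exact (Finset.mem_filter.1 (Finset.mem_filter.1 hc).1).2)
      rwa [Finset.card_image_of_injOn hinj] at h1
  have hcard : Bd.card ≤ n * O.card := by
    rw [Finset.card_eq_sum_card_fiberwise hmap]
    calc _ ≤ ∑ _o ∈ O, n := Finset.sum_le_sum hfib
      _ = _ := by rw [Finset.sum_const, smul_eq_mul, mul_comm]
  have hOcard : O.card * (2 * M + 1) ≤ (box ι H).card := by
    have h1 : O.card = ∏ p : J × ι, if p.1 = j₀ then 1 else (2 * H p.1 + 1) := by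
      rw [hO, Fintype.card_piFinset]
      refine Finset.prod_congr rfl fun p _ => ?_
      split_ifs
      · simp
      · rw [Int.card_Icc]; omega
    have h2 : (box ι H).card = ∏ p : J × ι, (2 * H p.1 + 1) := card_bx _
    obtain ⟨i₀⟩ := (inferInstance : Nonempty ι)
    have h3 : ∏ p : J × ι, (2 * H p.1 + 1) = (∏ p : J × ι, if p.1 = j₀ then 1 else (2 * H p.1 + 1)) *
        ∏ p : J × ι, if p.1 = j₀ then (2 * H p.1 + 1) else 1 := by
      rw [← Finset.prod_mul_distrib]
      refine Finset.prod_congr rfl fun p _ => ?_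
      split_ifs <;> ring
    rw [h1, h2, h3]
    refine Nat.mul_le_mul_left _ ?_
    have h4 : (if ((j₀, i₀) : J × ι).1 = j₀ then (2 * H ((j₀, i₀) : J × ι).1 + 1) else 1) ≤
        ∏ p : J × ι, if p.1 = j₀ then (2 * H p.1 + 1) else 1 :=
      Finset.single_le_prod' (f := fun p : J × ι => if p.1 = j₀ then (2 * H p.1 + 1) else 1)
        (fun p _ => by
          show 1 ≤ if p.1 = j₀ then (2 * H p.1 + 1) else 1
          split_ifs <;> omega) (Finset.mem_univ _)
    rw [if_pos rfl] at h4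
    have := hH j₀
    exact le_trans (by simp only; omega) h4
  have h5 : Bd.card * (2 * M + 1) ≤ n * (box ι H).card := by
    calc Bd.card * (2 * M + 1) ≤ n * O.card * (2 * M + 1) := Nat.mul_le_mul_right _ hcard
      _ = n * (O.card * (2 * M + 1)) := by ring
      _ ≤ n * (box ι H).card := Nat.mul_le_mul_left _ hOcard
  exact_mod_cast h5

end

end Run7.h876.EN
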