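import Pool.Agent.Run7.h876.MM.Core

/-!
# The logarithm of an Euler factor and the local mean value
-/

set_option autoImplicit false
set_option linter.unusedSectionVars false

namespace Run7.h876.EN

open Finset
open Run7.h876.MM (avg norm_avg_le avg_sub')

/-- `∑ a m X^(m+1) / (m+1)` -/
noncomputable def ell (a : ℕ → ℂ) (X : ℂ) : ℂ := ∑' m : ℕ, a m * X ^ (m + 1) / ((m : ℂ) + 1)

section
variable {a : ℕ → ℂ} {X : ℂ} {D Q : ℝ}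

theorem term_le (_hD : 0 ≤ D) (_hQ : 0 ≤ Q) (ha : ∀ m, ‖a m‖ ≤ D * Q ^ (m + 1)) (m : ℕ) :
    ‖a m * X ^ (m + 1) / ((m : ℂ) + 1)‖ ≤ D * (Q * ‖X‖) ^ (m + 1) := by
  rw [norm_div, norm_mul, norm_pow]
  have h1 : (1 : ℝ) ≤ ‖(m : ℂ) + 1‖ := by
    have : ((m : ℂ) + 1) = ((m + 1 : ℕ) : ℂ) := by push_cast; ring
    rw [this, Complex.norm_natCast]
    push_cast
    linarith [(Nat.cast_nonneg m : (0 : ℝ) ≤ m)]
  have h2 : ‖a m‖ * ‖X‖ ^ (m + 1) ≤ D * (Q * ‖X‖) ^ (m + 1) := by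
    rw [mul_pow, ← mul_assoc]
    exact mul_le_mul_of_nonneg_right (ha m) (by positivity)
  refine (div_le_self (by positivity) h1).trans h2

theorem ell_summable (hD : 0 ≤ D) (hQ : 0 ≤ Q) (ha : ∀ m, ‖a m‖ ≤ D * Q ^ (m + 1)) (hX : Q * ‖X‖ < 1) :
    Summable fun m : ℕ => a m * X ^ (m + 1) / ((m : ℂ) + 1) := by
  have h0 : 0 ≤ Q * ‖X‖ := by positivity
  refine Summable.of_norm_bounded (g := fun m : ℕ => D * (Q * ‖X‖) ^ (m + 1)) ?_ fun m => term_le hD hQ ha m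
  exact ((summable_nat_add_iff 1).2 (summable_geometric_of_lt_one h0 hX)).mul_left D

theorem ell_tail (hD : 0 ≤ D) (hQ : 0 ≤ Q) (ha : ∀ m, ‖a m‖ ≤ D * Q ^ (m + 1)) {y : ℝ} (hX : Q * ‖X‖ ≤ y) (hy : y < 1)
    (n : ℕ) : ‖ell a X - ∑ m ∈ range n, a m * X ^ (m + 1) / ((m : ℂ) + 1)‖ ≤ D * (Q * ‖X‖) ^ (n + 1) / (1 - y) := by
  have h0 : 0 ≤ Q * ‖X‖ := by positivity
  have hlt : Q * ‖X‖ < 1 := hX.trans_lt hy
  have hs := ell_summable hD hQ ha hlt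
  have e : ell a X - ∑ m ∈ range n, a m * X ^ (m + 1) / ((m : ℂ) + 1) =
      ∑' m : ℕ, a (m + n) * X ^ (m + n + 1) / (((m + n : ℕ) : ℂ) + 1) := by
    unfold ell
    rw [← hs.sum_add_tsum_nat_add n]
    ring
  rw [e]
  have hg : HasSum (fun m : ℕ => D * (Q * ‖X‖) ^ (n + 1) * (Q * ‖X‖) ^ m) (D * (Q * ‖X‖) ^ (n + 1) * (1 - Q * ‖X‖)⁻¹) :=
    (hasSum_geometric_of_lt_one h0 hlt).mul_left _
  have h1 : ‖∑' m : ℕ, a (m + n) * X ^ (m + n + 1) / (((m + n : ℕ) : ℂ) + 1)‖ ≤ D * (Q * ‖X‖) ^ (n + 1) * (1 - Q * ‖X‖)⁻¹ := by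
    refine tsum_of_norm_bounded hg fun m => ?_
    refine (term_le hD hQ ha (m + n)).trans (le_of_eq ?_)
    rw [mul_assoc, ← pow_add]
    congr 2
    ring
  refine h1.trans ?_
  rw [div_eq_mul_inv]
  refine mul_le_mul_of_nonneg_left ?_ (by positivity)
  exact inv_anti₀ (by linarith) (by linarith)

theorem ell_le (hD : 0 ≤ D) (hQ : 0 ≤ Q) (ha : ∀ m, ‖a m‖ ≤ D * Q ^ (m + 1)) {y : ℝ} (hX : Q * ‖X‖ ≤ y) (hy : y < 1) :
    ‖ell a X‖ ≤ D * (Q * ‖X‖) / (1 - y) := by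
  have := ell_tail hD hQ ha hX hy 0
  simpa using this

end

/-- The series of ones is the logarithm. -/
theorem ell_one {X : ℂ} (hX : ‖X‖ < 1) : ell (fun _ => 1) X = -Complex.log (1 - X) := by
  have h := Complex.hasSum_taylorSeries_neg_log hX
  have h2 := (hasSum_nat_add_iff' 1).2 h
  simp only [range_one, sum_singleton, pow_zero, Nat.cast_zero, div_zero, sub_zero] at h2
  unfold ell
  rw [← h2.tsum_eq]
  refine tsum_congr fun m => ?_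
  push_cast
  ring

theorem exp_ell_one {X : ℂ} (hX : ‖X‖ < 1) : Complex.exp (ell (fun _ => 1) X) = (1 - X)⁻¹ := by
  rw [ell_one hX, Complex.exp_neg, Complex.exp_log]
  intro h
  have : X = 1 := (sub_eq_zero.1 h).symm
  rw [this, norm_one] at hX
  exact lt_irrefl _ hX

/-- The quadratic Taylor approximation of the exponential. -/
theorem exp_taylor {z : ℂ} {B : ℝ} (hz : ‖z‖ ≤ B) :
    ‖Complex.exp z - (1 + z + z ^ 2 / 2)‖ ≤ ‖z‖ ^ 3 * Real.exp B := by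
  have h := Complex.norm_exp_sub_sum_le_norm_mul_exp z 3
  have e : ∑ m ∈ range 3, z ^ m / (m.factorial : ℂ) = 1 + z + z ^ 2 / 2 := by
    simp [Finset.sum_range_succ, Nat.factorial]
  rw [e] at h
  exact h.trans (mul_le_mul_of_nonneg_left (Real.exp_le_exp.2 hz) (by positivity))

/-- The coefficient of the zeta function of `2 s - 1`. -/
noncomputable def kp (k : ℂ) : ℂ := k * (k - 1) / 2

/-- The exponent of the normalised power of an Euler factor. -/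
noncomputable def expo (k r : ℂ) (q : ℝ) (a : ℕ → ℂ) (X : ℂ) : ℂ :=
  k * ell a X + k * r * ell (fun _ => 1) X - kp k * ell (fun _ => 1) ((q : ℂ) * X ^ 2)

theorem one_bound (m : ℕ) : ‖(fun _ : ℕ => (1 : ℂ)) m‖ ≤ 1 * (1 : ℝ) ^ (m + 1) := by simp

theorem pow_facts {y : ℝ} (hy0 : 0 ≤ y) (hy1 : y ≤ 1) : y ^ 2 ≤ y ∧ y ^ 2 ≤ 1 ∧ y ^ 3 ≤ 1 ∧ (y ^ 2) ^ 2 ≤ y ^ 3 ∧
    0 ≤ y ^ 2 ∧ 0 ≤ y ^ 3 := by
  refine ⟨?_, pow_le_one₀ hy0 hy1, pow_le_one₀ hy0 hy1, ?_, by positivity, by positivity⟩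
  · rw [sq]; exact mul_le_of_le_one_right hy0 hy1
  · have h5 : (y ^ 2) ^ 2 = y ^ 3 * y := by ring
    rw [h5]
    exact mul_le_of_le_one_right (by positivity) hy1

theorem kp_le {R : ℝ} {k : ℂ} (hk : ‖k‖ ≤ R) : ‖kp k‖ ≤ R * (R + 1) / 2 := by
  unfold kp
  rw [norm_div, norm_mul]
  have h1 : ‖k - 1‖ ≤ R + 1 := (norm_sub_le _ _).trans (by rw [norm_one]; linarith)
  have h2 : ‖(2 : ℂ)‖ = 2 := by simp
  have h3 : 0 ≤ R := (norm_nonneg _).trans hk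
  rw [h2]
  gcongr

/-- the constant of the exponent -/
noncomputable def A0 (R D r y₀ : ℝ) : ℝ := (R * D + R * r + R * (R + 1) / 2) * (1 - y₀)⁻¹

theorem A0_nonneg {R D r y₀ : ℝ} (hR : 0 ≤ R) (hD : 0 ≤ D) (hr : 0 ≤ r) (hy₀ : y₀ < 1) : 0 ≤ A0 R D r y₀ := by
  have : 0 < (1 - y₀)⁻¹ := inv_pos.2 (by linarith)
  unfold A0; positivity

section
variable {R D r y₀ : ℝ} {k : ℂ} {q : ℝ} {X : ℂ}

theorem expo_le (hR : 0 ≤ R) (hD : 0 ≤ D) (hr : 0 ≤ r) (hy₀ : y₀ < 1) (hk : ‖k‖ ≤ R) (hq : 1 ≤ q)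
    (hX : Real.sqrt q * ‖X‖ ≤ y₀) (a : ℕ → ℂ) (ha : ∀ m, ‖a m‖ ≤ D * Real.sqrt q ^ (m + 1)) :
    ‖expo k r q a X‖ ≤ A0 R D r y₀ * (Real.sqrt q * ‖X‖) ∧
    ‖expo k r q a X - (k * (a 0 + r) * X + (k * a 1 / 2 - kp k * q) * X ^ 2)‖ ≤
      A0 R D r y₀ * (‖X‖ ^ 2 + (Real.sqrt q * ‖X‖) ^ 3) := by
  set w : ℝ := (1 - y₀)⁻¹ with hw
  have hw0 : 0 < w := inv_pos.2 (by linarith)
  set K : ℝ := R * (R + 1) / 2 with hK
  have hK0 : 0 ≤ K := by positivity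
  set Q : ℝ := Real.sqrt q with hQ
  have hQ1 : 1 ≤ Q := by rw [hQ]; exact Real.one_le_sqrt.2 hq
  have hQ0 : 0 < Q := by linarith
  have hQq : Q * Q = q := Real.mul_self_sqrt (by linarith)
  set y : ℝ := Q * ‖X‖ with hy
  have hy0 : 0 ≤ y := by positivity
  have hy1 : y ≤ 1 := by linarith
  obtain ⟨f1, f2, f3, f4, f5, f6⟩ := pow_facts hy0 hy1
  have hXy : ‖X‖ ≤ y := le_mul_of_one_le_left (norm_nonneg _) hQ1
  have hX1 : 1 * ‖X‖ ≤ y₀ := by rw [one_mul]; linarith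
  have hqX : ‖(q : ℂ) * X ^ 2‖ = y ^ 2 := by
    rw [norm_mul, norm_pow, Complex.norm_real, Real.norm_of_nonneg (by linarith), hy, mul_pow, ← hQq]
    ring
  have hqX1 : 1 * ‖(q : ℂ) * X ^ 2‖ ≤ y₀ := by
    rw [one_mul, hqX]
    linarith
  have hkp : ‖kp k‖ ≤ K := kp_le hk
  have hrn : ‖(r : ℂ)‖ = r := by rw [Complex.norm_real, Real.norm_of_nonneg hr]
  have hζ1 : ‖ell (fun _ => 1) X‖ ≤ ‖X‖ * w := by
    have := ell_le (a := fun _ => (1 : ℂ)) (D := 1) (Q := 1) zero_le_one zero_le_one one_bound hX1 hy₀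
    simpa [div_eq_mul_inv, hw] using this
  have hζ2 : ‖ell (fun _ => 1) ((q : ℂ) * X ^ 2)‖ ≤ y ^ 2 * w := by
    have := ell_le (a := fun _ => (1 : ℂ)) (D := 1) (Q := 1) zero_le_one zero_le_one one_bound hqX1 hy₀
    rw [hqX] at this
    simpa [div_eq_mul_inv, hw] using this
  constructor
  · unfold expo
    have h1 := ell_le hD hQ0.le ha hX hy₀
    rw [div_eq_mul_inv, ← hw] at h1
    have h2 : ‖k * ell a X‖ ≤ R * (D * y * w) := by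
      rw [norm_mul]
      exact mul_le_mul hk h1 (norm_nonneg _) hR
    have h3 : ‖k * r * ell (fun _ => 1) X‖ ≤ R * r * (y * w) := by
      rw [norm_mul, norm_mul, hrn]
      have := hζ1.trans (mul_le_mul_of_nonneg_right hXy hw0.le)
      gcongr
    have h4 : ‖kp k * ell (fun _ => 1) ((q : ℂ) * X ^ 2)‖ ≤ K * (y * w) := by
      rw [norm_mul]
      exact mul_le_mul hkp (hζ2.trans (mul_le_mul_of_nonneg_right f1 hw0.le)) (norm_nonneg _) hK0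
    have h5 : ‖k * ell a X + k * r * ell (fun _ => 1) X - kp k * ell (fun _ => 1) ((q : ℂ) * X ^ 2)‖ ≤
        R * (D * y * w) + R * r * (y * w) + K * (y * w) :=
      (norm_sub_le _ _).trans (add_le_add ((norm_add_le _ _).trans (add_le_add h2 h3)) h4)
    refine h5.trans (le_of_eq ?_)
    unfold A0
    rw [← hw]
    ring
  · have k1 := ell_tail hD hQ0.le ha hX hy₀ 2
    have k2 := ell_tail (a := fun _ => (1 : ℂ)) (D := 1) (Q := 1) zero_le_one zero_le_one one_bound hX1 hy₀ 1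
    have k3 := ell_tail (a := fun _ => (1 : ℂ)) (D := 1) (Q := 1) zero_le_one zero_le_one one_bound hqX1 hy₀ 1
    rw [one_mul, one_mul, hqX] at k3
    rw [one_mul, one_mul] at k2
    simp only [Finset.sum_range_succ, Finset.sum_range_zero, zero_add, Nat.cast_zero, Nat.cast_one, div_eq_mul_inv,
      ← hw, pow_one, one_mul, inv_one, mul_one] at k1 k2 k3
    have e : expo k r q a X - (k * (a 0 + r) * X + (k * a 1 / 2 - kp k * q) * X ^ 2) =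
        k * (ell a X - (a 0 * X + a 1 * X ^ (1 + 1) * (1 + 1)⁻¹)) +
        k * r * (ell (fun _ => 1) X - X) - kp k * (ell (fun _ => 1) ((q : ℂ) * X ^ 2) - (q : ℂ) * X ^ 2) := by
      unfold expo
      ring
    rw [e]
    have j1 : ‖k * (ell a X - (a 0 * X + a 1 * X ^ (1 + 1) * (1 + 1)⁻¹))‖ ≤ R * (D * y ^ 3 * w) := by
      rw [norm_mul]
      exact mul_le_mul hk k1 (norm_nonneg _) hR
    have j2 : ‖k * r * (ell (fun _ => 1) X - X)‖ ≤ R * r * (‖X‖ ^ 2 * w) := by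
      rw [norm_mul, norm_mul, hrn]
      exact mul_le_mul (mul_le_mul_of_nonneg_right hk hr) k2 (norm_nonneg _) (by positivity)
    have j3 : ‖kp k * (ell (fun _ => 1) ((q : ℂ) * X ^ 2) - (q : ℂ) * X ^ 2)‖ ≤ K * (y ^ 3 * w) := by
      rw [norm_mul]
      exact mul_le_mul hkp (k3.trans (mul_le_mul_of_nonneg_right f4 hw0.le)) (norm_nonneg _) hK0
    refine (norm_sub_le _ _).trans ((add_le_add ((norm_add_le _ _).trans (add_le_add j1 j2)) j3).trans ?_)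
    have j7 : 0 ≤ R * D * w * ‖X‖ ^ 2 := by positivity
    have j8 : 0 ≤ R * r * w * y ^ 3 := by positivity
    have j9 : 0 ≤ K * w * ‖X‖ ^ 2 := by positivity
    have e2 : A0 R D r y₀ * (‖X‖ ^ 2 + y ^ 3) = (R * (D * y ^ 3 * w) + R * r * (‖X‖ ^ 2 * w) + K * (y ^ 3 * w)) +
        R * D * w * ‖X‖ ^ 2 + R * r * w * y ^ 3 + K * w * ‖X‖ ^ 2 := by
      unfold A0
      rw [← hw]
      ring
    rw [e2]
    linarith

/-- pointwise expansion -/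
theorem exp_expand {z L1 L2 : ℂ} {A₀ A₁ A₂ x y : ℝ} (hA₀ : 0 ≤ A₀) (hA₁ : 0 ≤ A₁) (hA₂ : 0 ≤ A₂) (hx : 0 ≤ x) (hx1 : x ≤ 1)
    (hy0 : 0 ≤ y) (hy1 : y ≤ 1)
    (hz : ‖z‖ ≤ A₀ * y) (hE : ‖z - (L1 + L2)‖ ≤ A₀ * (x ^ 2 + y ^ 3)) (h1 : ‖L1‖ ≤ A₁ * y) (h2 : ‖L2‖ ≤ A₂ * y ^ 2) :
    ‖Complex.exp z - (1 + L1 + (L2 + L1 ^ 2 / 2))‖ ≤
      (A₀ ^ 3 * Real.exp A₀ + A₂ * (A₁ + A₂) + A₀ * (1 + (A₁ + A₂ + A₀))) * (x ^ 2 + y ^ 3) := by
  obtain ⟨f1, f2, f3, f4, f5, f6⟩ := pow_facts hy0 hy1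
  have hx2 : x ^ 2 ≤ 1 := pow_le_one₀ hx hx1
  have hx0 : 0 ≤ x ^ 2 := by positivity
  have hz2 : ‖z‖ ≤ A₀ := hz.trans (mul_le_of_le_one_right hA₀ hy1)
  have m1 := exp_taylor hz2
  set E := z - (L1 + L2) with hEE
  have hzE : z = L1 + L2 + E := by rw [hEE]; ring
  have e : Complex.exp z - (1 + L1 + (L2 + L1 ^ 2 / 2)) =
      (Complex.exp z - (1 + z + z ^ 2 / 2)) + E + L2 * (L1 + L2 / 2) + E * (2 * (L1 + L2) + E) / 2 := by
    rw [hzE]; ring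
  rw [e]
  have h7 : ‖(2 : ℂ)‖ = 2 := by simp
  have n1 : ‖Complex.exp z - (1 + z + z ^ 2 / 2)‖ ≤ A₀ ^ 3 * Real.exp A₀ * y ^ 3 := by
    refine m1.trans ?_
    have : ‖z‖ ^ 3 ≤ (A₀ * y) ^ 3 := pow_le_pow_left₀ (norm_nonneg _) hz 3
    calc ‖z‖ ^ 3 * Real.exp A₀ ≤ (A₀ * y) ^ 3 * Real.exp A₀ := by gcongr
      _ = _ := by ring
  have n2 : ‖L2 * (L1 + L2 / 2)‖ ≤ A₂ * (A₁ + A₂) * y ^ 3 := by
    rw [norm_mul]
    have o1 : ‖L1 + L2 / 2‖ ≤ (A₁ + A₂) * y := by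
      refine (norm_add_le _ _).trans ?_
      rw [norm_div, h7]
      have o4 : A₂ * y ^ 2 ≤ A₂ * y := mul_le_mul_of_nonneg_left f1 hA₂
      have o5 : 0 ≤ ‖L2‖ := norm_nonneg _
      have o6 : (A₁ + A₂) * y = A₁ * y + A₂ * y := by ring
      rw [o6]
      linarith
    calc ‖L2‖ * ‖L1 + L2 / 2‖ ≤ (A₂ * y ^ 2) * ((A₁ + A₂) * y) :=
          mul_le_mul h2 o1 (norm_nonneg _) (by positivity)
      _ = _ := by ring
  have n3 : ‖E * (2 * (L1 + L2) + E) / 2‖ ≤ A₀ * (A₁ + A₂ + A₀) * (x ^ 2 + y ^ 3) := by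
    rw [norm_div, norm_mul, h7]
    have o1 : ‖2 * (L1 + L2) + E‖ ≤ 2 * (A₁ + A₂ + A₀) := by
      refine (norm_add_le _ _).trans ?_
      rw [norm_mul, h7]
      have o2 : ‖L1‖ ≤ A₁ := h1.trans (mul_le_of_le_one_right hA₁ hy1)
      have o3 : ‖L2‖ ≤ A₂ := h2.trans (mul_le_of_le_one_right hA₂ f2)
      have o4 : ‖L1 + L2‖ ≤ A₁ + A₂ := (norm_add_le _ _).trans (add_le_add o2 o3)
      have o5 : ‖E‖ ≤ A₀ * 2 := hE.trans (mul_le_mul_of_nonneg_left (by linarith) hA₀)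
      linarith
    have o6 : ‖E‖ * ‖2 * (L1 + L2) + E‖ ≤ (A₀ * (x ^ 2 + y ^ 3)) * (2 * (A₁ + A₂ + A₀)) :=
      mul_le_mul hE o1 (norm_nonneg _) (by positivity)
    rw [div_le_iff₀ (by norm_num)]
    refine o6.trans (le_of_eq ?_)
    ring
  refine (norm_add₃_le.trans (add_le_add (add_le_add (norm_add_le _ _) le_rfl) le_rfl)).trans ?_
  have p1 : 0 ≤ A₀ ^ 3 * Real.exp A₀ * x ^ 2 := by positivity
  have p2 : 0 ≤ A₂ * (A₁ + A₂) * x ^ 2 := by positivity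
  have e3 : (A₀ ^ 3 * Real.exp A₀ + A₂ * (A₁ + A₂) + A₀ * (1 + (A₁ + A₂ + A₀))) * (x ^ 2 + y ^ 3) =
      A₀ ^ 3 * Real.exp A₀ * y ^ 3 + A₀ * (x ^ 2 + y ^ 3) + A₂ * (A₁ + A₂) * y ^ 3 +
      A₀ * (A₁ + A₂ + A₀) * (x ^ 2 + y ^ 3) + A₀ ^ 3 * Real.exp A₀ * x ^ 2 + A₂ * (A₁ + A₂) * x ^ 2 := by ring
  rw [e3]
  linarith

theorem avg_main {α : Type} [Fintype α] [Nonempty α] (a : α → ℕ → ℂ) (k r' q' X : ℂ) :
    avg Finset.univ (fun t => 1 + k * (a t 0 + r') * X + ((k * a t 1 / 2 - kp k * q') * X ^ 2 +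
      (k * (a t 0 + r') * X) ^ 2 / 2)) - 1 =
      k * X * (avg Finset.univ (fun t => a t 0) + r') +
      (k ^ 2 / 2 * (avg Finset.univ (fun t => (a t 0 + r') ^ 2) - q') +
        k / 2 * (avg Finset.univ (fun t => a t 1) + q')) * X ^ 2 := by
  have hcard : ((Finset.univ : Finset α).card : ℂ) ≠ 0 := by
    have : 0 < (Finset.univ : Finset α).card := Finset.card_pos.2 Finset.univ_nonempty
    exact_mod_cast this.ne'
  unfold avg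
  have g2 : ∀ t, 1 + k * (a t 0 + r') * X + ((k * a t 1 / 2 - kp k * q') * X ^ 2 + (k * (a t 0 + r') * X) ^ 2 / 2) =
      (1 + k * X * r' - kp k * q' * X ^ 2) + k * X * a t 0 +
      k * X ^ 2 / 2 * a t 1 + k ^ 2 * X ^ 2 / 2 * (a t 0 + r') ^ 2 := by
    intro t
    ring
  rw [Finset.sum_congr rfl fun t _ => g2 t, Finset.sum_add_distrib, Finset.sum_add_distrib,
    Finset.sum_add_distrib, Finset.sum_const, nsmul_eq_mul, ← Finset.mul_sum, ← Finset.mul_sum, ← Finset.mul_sum]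
  unfold kp
  field_simp
  ring

end

/-- **The local estimates.** -/
theorem local_est (R D r C₁ y₀ : ℝ) (hR : 0 ≤ R) (hD : 0 ≤ D) (hr : 0 ≤ r) (hC₁ : 0 ≤ C₁) (hy₀ : y₀ < 1) :
    ∃ C : ℝ, 0 ≤ C ∧ ∀ (k : ℂ), ‖k‖ ≤ R → ∀ (q : ℝ), 1 ≤ q → ∀ X : ℂ, Real.sqrt q * ‖X‖ ≤ y₀ →
      ∀ (α : Type) [Fintype α] (_ : Nonempty α) (a : α → ℕ → ℂ),
      (∀ t m, ‖a t m‖ ≤ D * Real.sqrt q ^ (m + 1)) →
      ‖avg Finset.univ (fun t => a t 0) + r‖ ≤ C₁ / Real.sqrt q →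
      ‖avg Finset.univ (fun t => (a t 0 + r) ^ 2) - q‖ ≤ C₁ * Real.sqrt q →
      ‖avg Finset.univ (fun t => a t 1) + q‖ ≤ C₁ * Real.sqrt q →
      ‖avg Finset.univ (fun t => Complex.exp (expo k r q (a t) X)) - 1‖ ≤
        C * (‖X‖ / Real.sqrt q + Real.sqrt q * ‖X‖ ^ 2 + (Real.sqrt q * ‖X‖) ^ 3) := by
  have hA₀ := A0_nonneg (y₀ := y₀) hR hD hr hy₀
  obtain ⟨A₀, hA₀d⟩ : ∃ A, A = A0 R D r y₀ := ⟨_, rfl⟩
  rw [← hA₀d] at hA₀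
  obtain ⟨A₁, hA₁d⟩ : ∃ A, A = R * (D + r) := ⟨_, rfl⟩
  have hA₁ : 0 ≤ A₁ := by rw [hA₁d]; positivity
  obtain ⟨A₂, hA₂d⟩ : ∃ A, A = R * D / 2 + R * (R + 1) / 2 := ⟨_, rfl⟩
  have hA₂ : 0 ≤ A₂ := by rw [hA₂d]; positivity
  obtain ⟨B, hBd⟩ : ∃ B, B = A₀ ^ 3 * Real.exp A₀ + A₂ * (A₁ + A₂) + A₀ * (1 + (A₁ + A₂ + A₀)) := ⟨_, rfl⟩
  have hB : 0 ≤ B := by rw [hBd]; positivity
  refine ⟨B + (R * C₁ + R ^ 2 * C₁), by positivity, fun k hk q hq X hX α _ _ a ha h1 h2 h3 => ?_⟩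
  obtain ⟨Q, hQ⟩ : ∃ Q, Q = Real.sqrt q := ⟨_, rfl⟩
  rw [← hQ] at hX h1 h2 h3 ⊢
  have hQ1 : 1 ≤ Q := by rw [hQ]; exact Real.one_le_sqrt.2 hq
  have hQ0 : 0 < Q := by linarith
  have hQq : Q * Q = q := by rw [hQ]; exact Real.mul_self_sqrt (by linarith)
  obtain ⟨y, hy⟩ : ∃ y, y = Q * ‖X‖ := ⟨_, rfl⟩
  have hy0 : 0 ≤ y := by rw [hy]; positivity
  have hy1 : y ≤ 1 := by rw [hy]; linarith
  have hXy : ‖X‖ ≤ y := by rw [hy]; exact le_mul_of_one_le_left (norm_nonneg _) hQ1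
  have hrn : ‖(r : ℂ)‖ = r := by rw [Complex.norm_real, Real.norm_of_nonneg hr]
  have h7 : ‖(2 : ℂ)‖ = 2 := by simp
  have hpt : ∀ t, ‖Complex.exp (expo k r q (a t) X) - (1 + k * (a t 0 + r) * X +
      ((k * a t 1 / 2 - kp k * q) * X ^ 2 + (k * (a t 0 + r) * X) ^ 2 / 2))‖ ≤ B * (‖X‖ ^ 2 + y ^ 3) := by
    intro t
    have hat := ha t
    obtain ⟨e1, e2⟩ := expo_le hR hD hr hy₀ hk hq (by rw [← hQ]; exact hX) (a t) hat
    rw [← hQ] at hat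
    rw [← hA₀d, ← hQ, ← hy] at e1 e2
    rw [hBd]
    refine exp_expand hA₀ hA₁ hA₂ (norm_nonneg _) (hXy.trans hy1) hy0 hy1 e1 e2 ?_ ?_
    · rw [norm_mul, norm_mul]
      have h5 : ‖a t 0 + r‖ ≤ (D + r) * Q := by
        refine (norm_add_le _ _).trans ?_
        rw [hrn]
        have h6 := hat 0
        rw [zero_add, pow_one] at h6
        have h8 : r ≤ r * Q := le_mul_of_one_le_right hr hQ1
        have h9 : (D + r) * Q = D * Q + r * Q := by ring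
        rw [h9]
        linarith
      calc ‖k‖ * ‖a t 0 + r‖ * ‖X‖ ≤ R * ((D + r) * Q) * ‖X‖ := by gcongr
        _ = A₁ * y := by rw [hA₁d, hy]; ring
    · rw [norm_mul, norm_pow]
      have h5 : ‖k * a t 1 / 2 - kp k * q‖ ≤ A₂ * (Q * Q) := by
        refine (norm_sub_le _ _).trans ?_
        rw [norm_div, norm_mul, norm_mul, Complex.norm_real, Real.norm_of_nonneg (by linarith : 0 ≤ q)]
        have h6 := hat 1
        rw [h7]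
        have h8 : ‖k‖ * ‖a t 1‖ ≤ R * (D * Q ^ (1 + 1)) := mul_le_mul hk h6 (norm_nonneg _) hR
        have h9 : ‖kp k‖ * q ≤ R * (R + 1) / 2 * q := mul_le_mul_of_nonneg_right (kp_le hk) (by linarith)
        have h10 : A₂ * (Q * Q) = R * (D * Q ^ (1 + 1)) / 2 + R * (R + 1) / 2 * q := by rw [hA₂d, ← hQq]; ring
        rw [h10]
        exact add_le_add (div_le_div_of_nonneg_right h8 (by norm_num)) h9
      calc ‖k * a t 1 / 2 - kp k * q‖ * ‖X‖ ^ 2 ≤ A₂ * (Q * Q) * ‖X‖ ^ 2 := by gcongr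
        _ = A₂ * y ^ 2 := by rw [hy]; ring
  have hmain := avg_main a k r q X
  obtain ⟨mA, hmA⟩ : ∃ z, z = avg Finset.univ (fun t => 1 + k * (a t 0 + r) * X +
      ((k * a t 1 / 2 - kp k * q) * X ^ 2 + (k * (a t 0 + r) * X) ^ 2 / 2)) := ⟨_, rfl⟩
  rw [← hmA] at hmain
  have hfin : ‖mA - 1‖ ≤ R * C₁ * (‖X‖ / Q) + (R ^ 2 * C₁ / 2 + R * C₁ / 2) * (Q * ‖X‖ ^ 2) := by
    rw [hmain]
    have f1 : ‖k * X * (avg Finset.univ (fun t => a t 0) + r)‖ ≤ R * C₁ * (‖X‖ / Q) := by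
      rw [norm_mul, norm_mul]
      calc ‖k‖ * ‖X‖ * ‖avg Finset.univ (fun t => a t 0) + r‖ ≤ R * ‖X‖ * (C₁ / Q) := by gcongr
        _ = _ := by ring
    have f2 : ‖(k ^ 2 / 2 * (avg Finset.univ (fun t => (a t 0 + r) ^ 2) - q) +
        k / 2 * (avg Finset.univ (fun t => a t 1) + q)) * X ^ 2‖ ≤ (R ^ 2 * C₁ / 2 + R * C₁ / 2) * (Q * ‖X‖ ^ 2) := by
      rw [norm_mul, norm_pow]
      have f3 : ‖k ^ 2 / 2 * (avg Finset.univ (fun t => (a t 0 + r) ^ 2) - q)‖ ≤ R ^ 2 / 2 * (C₁ * Q) := by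
        rw [norm_mul, norm_div, norm_pow, h7]
        gcongr
      have f4 : ‖k / 2 * (avg Finset.univ (fun t => a t 1) + q)‖ ≤ R / 2 * (C₁ * Q) := by
        rw [norm_mul, norm_div, h7]
        gcongr
      calc _ ≤ (R ^ 2 / 2 * (C₁ * Q) + R / 2 * (C₁ * Q)) * ‖X‖ ^ 2 :=
            mul_le_mul_of_nonneg_right ((norm_add_le _ _).trans (add_le_add f3 f4)) (by positivity)
        _ = _ := by ring
    exact (norm_add_le _ _).trans (add_le_add f1 f2)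
  have hdiff : ‖avg Finset.univ (fun t => Complex.exp (expo k r q (a t) X)) - mA‖ ≤ B * (‖X‖ ^ 2 + y ^ 3) := by
    rw [hmA, avg_sub']
    exact norm_avg_le _ _ _ (by positivity) fun t _ => hpt t
  have e : avg Finset.univ (fun t => Complex.exp (expo k r q (a t) X)) - 1 =
      (avg Finset.univ (fun t => Complex.exp (expo k r q (a t) X)) - mA) + (mA - 1) := by ring
  rw [e]
  refine (norm_add_le _ _).trans ((add_le_add hdiff hfin).trans ?_)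
  rw [← hy]
  have q1 : ‖X‖ ^ 2 ≤ Q * ‖X‖ ^ 2 := le_mul_of_one_le_left (by positivity) hQ1
  have q2 : 0 ≤ ‖X‖ / Q := by positivity
  have q3 : 0 ≤ Q * ‖X‖ ^ 2 := by positivity
  have q4 : 0 ≤ y ^ 3 := by positivity
  have q5 : B * ‖X‖ ^ 2 ≤ B * (Q * ‖X‖ ^ 2) := mul_le_mul_of_nonneg_left q1 hB
  have q6 : 0 ≤ B * (‖X‖ / Q) := by positivity
  have q7 : 0 ≤ (R * C₁ + R ^ 2 * C₁) * y ^ 3 := by positivity
  have q8 : 0 ≤ R ^ 2 * C₁ * (‖X‖ / Q) := by positivity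
  have q9 : 0 ≤ (R * C₁ + R ^ 2 * C₁) * (Q * ‖X‖ ^ 2) / 2 := by positivity
  have e5 : (B + (R * C₁ + R ^ 2 * C₁)) * (‖X‖ / Q + Q * ‖X‖ ^ 2 + y ^ 3) =
      B * (Q * ‖X‖ ^ 2) + B * y ^ 3 + R * C₁ * (‖X‖ / Q) + (R ^ 2 * C₁ / 2 + R * C₁ / 2) * (Q * ‖X‖ ^ 2) +
      B * (‖X‖ / Q) + (R * C₁ + R ^ 2 * C₁) * y ^ 3 + R ^ 2 * C₁ * (‖X‖ / Q) +
      (R * C₁ + R ^ 2 * C₁) * (Q * ‖X‖ ^ 2) / 2 := by ring
  rw [e5, mul_add]
  linarith

end Run7.h876.EN
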