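import Pool.Agent.Run7.h876.EN.FF
import Pool.Agent.Run7.h876.EN.Ser

/-!
# Degenerate members of the family `U + m (a X + b)` and the traces of Frobenius
-/

set_option autoImplicit false
set_option linter.unusedSectionVars false

namespace Run7.h876.EN

open Finset Polynomial
open Pool.Agent.H341R2.Sharp
open Run7.h876.MM (avg)

section
variable {k : Type} [Field k] [Fintype k] [DecidableEq k]

theorem fam_monic {U : k[X]} (hU : U.Monic) {R : Finset k} (hd : R.card + 2 ≤ U.natDegree) (t : k × k) :
    (fam U R t).Monic ∧ (fam U R t).natDegree = U.natDegree := by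
  have h1 : (C t.1 * X + C t.2 : k[X]).natDegree ≤ 1 := by compute_degree
  have h2 : (mR R * (C t.1 * X + C t.2)).natDegree ≤ R.card + 1 := by
    refine natDegree_mul_le.trans ?_
    rw [mR_natDegree]
    omega
  have h3 : (mR R * (C t.1 * X + C t.2)).degree < U.degree := by
    rw [degree_eq_natDegree hU.ne_zero]
    exact (degree_le_natDegree).trans_lt (by exact_mod_cast (by omega : (mR R * (C t.1 * X + C t.2)).natDegree < U.natDegree))
  unfold fam
  refine ⟨hU.add_of_left h3, ?_⟩
  rw [natDegree_eq_of_degree_eq (degree_add_eq_left_of_degree_lt h3)]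

theorem fam_inj (R : Finset k) (U : k[X]) {t t' : k × k} (h : fam U R t = fam U R t') : t = t' := by
  unfold fam at h
  have h1 := mul_left_cancel₀ (mR_monic R).ne_zero (add_left_cancel h)
  have h2 : (C t.1 * X + C t.2 : k[X]).coeff 0 = (C t'.1 * X + C t'.2 : k[X]).coeff 0 := by rw [h1]
  have h3 : (C t.1 * X + C t.2 : k[X]).coeff 1 = (C t'.1 * X + C t'.2 : k[X]).coeff 1 := by rw [h1]
  simp at h2 h3
  exact Prod.ext h3 h2

/-! ### non-separable members -/

theorem wronskian_ne {U : k[X]} (hU : U.Monic) {R : Finset k} (hd : R.card + 2 ≤ U.natDegree)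
    (hp : ((U.natDegree - R.card : ℕ) : k) ≠ 0) :
    derivative U * mR R - U * derivative (mR R) ≠ 0 ∧
    (derivative U * mR R - U * derivative (mR R)).natDegree ≤ U.natDegree + R.card := by
  set d := U.natDegree with hdd
  set r := R.card with hr
  have hm := mR_monic R
  have hmd : (mR R).natDegree = r := mR_natDegree R
  have e1 : (derivative U * mR R).coeff ((d - 1) + r) = d := by
    rw [coeff_mul_add_eq_of_natDegree_le (natDegree_derivative_le U) hmd.le, coeff_derivative]
    have h1 : d - 1 + 1 = d := by omega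
    rw [h1, hdd, hU.coeff_natDegree, ← hmd, hm.coeff_natDegree]
    have : ((U.natDegree - 1 : ℕ) : k) + 1 = U.natDegree := by
      have h2 : 1 ≤ U.natDegree := by omega
      push_cast [Nat.cast_sub h2]
      ring
    rw [this]
    ring
  have e2 : (U * derivative (mR R)).coeff ((d - 1) + r) = r := by
    rcases Nat.eq_zero_or_pos r with h0 | h0
    · have : mR R = 1 := by
        have hR : R = ∅ := Finset.card_eq_zero.1 (hr ▸ h0)
        rw [hR]; simp [mR]
      rw [this]
      simp [h0]
    · have h1 : (d - 1) + r = d + (r - 1) := by omega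
      rw [h1, coeff_mul_add_eq_of_natDegree_le le_rfl ((natDegree_derivative_le _).trans (by rw [hmd])), coeff_derivative]
      have h2 : r - 1 + 1 = r := by omega
      have h3 : (mR R).coeff r = 1 := by rw [← hmd]; exact hm.coeff_natDegree
      rw [h2, h3, hU.coeff_natDegree]
      have : ((r - 1 : ℕ) : k) + 1 = r := by
        push_cast [Nat.cast_sub h0]
        ring
      rw [this]
      ring
  constructor
  · intro h0
    have h1 : (derivative U * mR R - U * derivative (mR R)).coeff ((d - 1) + r) = 0 := by rw [h0, coeff_zero]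
    rw [coeff_sub, e1, e2] at h1
    apply hp
    rw [Nat.cast_sub (by omega)]
    exact h1
  · refine (natDegree_sub_le _ _).trans (max_le ?_ ?_)
    · refine natDegree_mul_le.trans ?_
      have := natDegree_derivative_le U
      omega
    · refine natDegree_mul_le.trans ?_
      have := natDegree_derivative_le (mR R)
      omega

open Classical in
/-- **Non-separable members.** -/
theorem card_nonsep {U : k[X]} (hU : U.Monic) {R : Finset k} (hd : R.card + 2 ≤ U.natDegree)
    (hR : ∀ x ∈ R, U.eval x ≠ 0) (hp : ((U.natDegree - R.card : ℕ) : k) ≠ 0) :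
    #{t : k × k | ¬ (fam U R t).Separable} ≤ (U.natDegree + R.card) * Fintype.card k := by
  classical
  have h5 : #{t : k × k | ¬ (fam U R t).Separable} = ∑ a : k,
      #{t ∈ ({t : k × k | ¬ (fam U R t).Separable} : Finset (k × k)) | t.1 = a} :=
    Finset.card_eq_sum_card_fiberwise (fun _ _ => Finset.mem_coe.2 (Finset.mem_univ _))
  have h6 : ∀ a : k, #{t ∈ ({t : k × k | ¬ (fam U R t).Separable} : Finset (k × k)) | t.1 = a} ≤
      U.natDegree + R.card := by
    intro a
    set V : k[X] := U + mR R * (C a * X) with hV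
    have hVf : V = fam U R (a, 0) := by rw [hV]; unfold fam; simp
    obtain ⟨hVm, hVd⟩ := fam_monic hU hd (a, 0)
    rw [← hVf] at hVm hVd
    obtain ⟨hW0, hWd⟩ := wronskian_ne hVm (R := R) (by rw [hVd]; exact hd) (by rw [hVd]; exact hp)
    rw [hVd] at hWd
    set W := derivative V * mR R - V * derivative (mR R) with hW
    let Ω := AlgebraicClosure k
    have hWΩ : W.map (algebraMap k Ω) ≠ 0 := (Polynomial.map_ne_zero_iff (algebraMap k Ω).injective).2 hW0
    have hex : ∀ t ∈ ({t ∈ ({t : k × k | ¬ (fam U R t).Separable} : Finset (k × k)) | t.1 = a} : Finset (k × k)),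
        ∃ θ : Ω, θ ∈ (W.map (algebraMap k Ω)).roots.toFinset ∧ aeval θ (mR R) ≠ 0 ∧
          algebraMap k Ω t.2 * aeval θ (mR R) = -(aeval θ V) := by
      intro t ht
      simp only [Finset.mem_filter, Finset.mem_univ, true_and] at ht
      obtain ⟨hns, rfl⟩ := ht
      rw [Separable, isCoprime_iff_aeval_ne_zero_of_isAlgClosed k Ω] at hns
      push Not at hns
      obtain ⟨θ, h1, h2⟩ := hns
      have hft : fam U R t = V + mR R * C t.2 := by rw [hV]; unfold fam; ring
      have hm0 : aeval θ (mR R) ≠ 0 := by
        intro h0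
        obtain ⟨y, hy, hθ⟩ := (mR_aeval (E := Ω) R θ).1 h0
        have h3 : aeval θ (fam U R t) = aeval θ U := by
          rw [fam_aeval, h0, zero_mul, add_zero]
        rw [h3, hθ, aeval_algebraMap_apply, map_eq_zero, coe_aeval_eq_eval] at h1
        exact hR y hy h1
      refine ⟨θ, ?_, hm0, ?_⟩
      · rw [Multiset.mem_toFinset, mem_roots hWΩ, IsRoot, eval_map_algebraMap, hW]
        rw [hft] at h1 h2
        simp only [map_add, map_mul, aeval_C, derivative_mul, derivative_C, mul_zero, add_zero] at h1 h2
        simp only [map_sub, map_mul]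
        linear_combination (aeval θ (mR R)) * h2 - (aeval θ (derivative (mR R))) * h1
      · rw [hft] at h1
        simp only [map_add, map_mul, aeval_C] at h1
        linear_combination h1
    choose! θ hθ1 hθ2 hθ3 using hex
    calc _ ≤ (W.map (algebraMap k Ω)).roots.toFinset.card := by
          refine Finset.card_le_card_of_injOn θ (fun t ht => hθ1 t ht) ?_
          intro t ht t' ht' h
          have e1 := hθ3 t ht
          have e2 := hθ3 t' ht'
          rw [← h] at e2
          have e3 := mul_right_cancel₀ (hθ2 t ht) (e1.trans e2.symm)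
          have ht1 := (Finset.mem_filter.1 ht).2
          have ht2 := (Finset.mem_filter.1 ht').2
          exact Prod.ext (ht1.trans ht2.symm) ((algebraMap k Ω).injective e3)
      _ ≤ (W.map (algebraMap k Ω)).roots.card := Multiset.toFinset_card_le _
      _ ≤ (W.map (algebraMap k Ω)).natDegree := card_roots' _
      _ ≤ W.natDegree := natDegree_map_le
      _ ≤ _ := hWd
  rw [h5]
  calc _ ≤ ∑ _a : k, (U.natDegree + R.card) := Finset.sum_le_sum fun a _ => h6 a
    _ = _ := by rw [Finset.sum_const, Finset.card_univ, smul_eq_mul, mul_comm]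

/-! ### squares -/

/-- constant multiples of squares -/
def IsCSq (f : k[X]) : Prop := ∃ (c : k) (h : k[X]), f = C c * h ^ 2

theorem IsCSq.monic {f : k[X]} (hf : f.Monic) (h : IsCSq f) : ∃ g : k[X], g.Monic ∧ f = g ^ 2 := by
  obtain ⟨c, h, rfl⟩ := h
  have hc : c ≠ 0 := by
    rintro rfl
    rw [C_0, zero_mul] at hf
    exact not_monic_zero hf
  have hh : h ≠ 0 := by
    rintro rfl
    rw [zero_pow two_ne_zero, mul_zero] at hf
    exact not_monic_zero hf
  have hl : h.leadingCoeff ≠ 0 := leadingCoeff_ne_zero.2 hh
  have hcl : c * h.leadingCoeff ^ 2 = 1 := by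
    have := hf.leadingCoeff
    rwa [leadingCoeff_mul, leadingCoeff_C, leadingCoeff_pow] at this
  refine ⟨C (h.leadingCoeff)⁻¹ * h, ?_, ?_⟩
  · rw [Monic, leadingCoeff_mul, leadingCoeff_C, inv_mul_cancel₀ hl]
  · rw [mul_pow, ← C_pow]
    congr 2
    field_simp
    exact hcl

open Classical in
theorem card_csq (hk : ringChar k ≠ 2) {U : k[X]} (hU : U.Monic) {R : Finset k} (hd : R.card + 2 ≤ U.natDegree)
    (hd3 : 3 ≤ U.natDegree) (hR : ∀ x ∈ R, IsSquare (U.eval x)) :
    #{t : k × k | IsCSq (fam U R t)} ≤ 2 ^ R.card := by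
  classical
  have h2 : (2 : k) ≠ 0 := Ring.two_ne_zero hk
  have hex : ∀ t ∈ ({t : k × k | IsCSq (fam U R t)} : Finset (k × k)), ∃ g : k[X], g.Monic ∧ fam U R t = g ^ 2 := by
    intro t ht
    exact IsCSq.monic (fam_monic hU hd t).1 (Finset.mem_filter.1 ht).2
  choose! g hg1 hg2 using hex
  have hyex : ∀ x ∈ R, ∃ y, U.eval x = y * y := fun x hx => hR x hx
  choose! y hy using hyex
  have hinj : Set.InjOn (fun t => fun x : R => decide ((g t).eval x.1 = y x.1))
      (({t : k × k | IsCSq (fam U R t)} : Finset (k × k)) : Set (k × k)) := by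
    intro t ht t' ht' hs
    simp only at hs
    have hval : ∀ x ∈ R, (g t).eval x = (g t').eval x := by
      intro x hx
      have hs' := congrFun hs ⟨x, hx⟩
      simp only [decide_eq_decide] at hs'
      have key : ∀ u ∈ ({t : k × k | IsCSq (fam U R t)} : Finset (k × k)), (g u).eval x = y x ∨ (g u).eval x = -y x := by
        intro u hu
        have h3 : (g u).eval x ^ 2 = y x ^ 2 := by
          rw [← eval_pow, ← hg2 u hu, fam_eval, (mR_eval R x).2 hx, zero_mul, add_zero, hy x hx, sq]
        exact sq_eq_sq_iff_eq_or_eq_neg.1 h3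
      by_cases hc : (g t).eval x = y x
      · rw [hc, hs'.1 hc]
      · have hc' : ¬ (g t').eval x = y x := fun h => hc (hs'.2 h)
        rw [(key t ht).resolve_left hc, (key t' ht').resolve_left hc']
    have hdvd : mR R ∣ g t - g t' := by
      unfold mR
      refine Finset.prod_dvd_of_coprime ?_ ?_
      · intro a _ b _ hab
        exact isCoprime_X_sub_C_of_isUnit_sub (sub_ne_zero.2 hab).isUnit
      · intro x hx
        rw [dvd_iff_isRoot, IsRoot, eval_sub, hval x hx, sub_self]
    obtain ⟨w, hw⟩ := hdvd
    have hmul : mR R * (w * (g t + g t')) = mR R * (C (t.1 - t'.1) * X + C (t.2 - t'.2)) := by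
      have e1 : (g t - g t') * (g t + g t') = fam U R t - fam U R t' := by
        rw [hg2 t ht, hg2 t' ht']; ring
      rw [← mul_assoc, ← hw, e1]
      unfold fam
      rw [C_sub, C_sub]
      ring
    have hmul2 := mul_left_cancel₀ (mR_monic R).ne_zero hmul
    -- the degree of `g t + g t'`
    have hn : ∀ u ∈ ({t : k × k | IsCSq (fam U R t)} : Finset (k × k)), 2 * (g u).natDegree = U.natDegree := by
      intro u hu
      rw [← (fam_monic hU hd u).2, hg2 u hu, natDegree_pow]
    have hsum : (g t + g t').natDegree = (g t).natDegree ∧ g t + g t' ≠ 0 := by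
      have hnt : (g t').natDegree = (g t).natDegree := by
        have := hn t ht
        have := hn t' ht'
        omega
      have hc : (g t + g t').coeff (g t).natDegree = 2 := by
        rw [coeff_add, (hg1 t ht).coeff_natDegree, ← hnt, (hg1 t' ht').coeff_natDegree]
        norm_num
      constructor
      · refine le_antisymm ((natDegree_add_le _ _).trans (by rw [hnt, max_self])) ?_
        exact le_natDegree_of_ne_zero (by rw [hc]; exact h2)
      · intro h0
        rw [h0, coeff_zero] at hc
        exact h2 hc.symm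
    have hw0 : w = 0 := by
      by_contra hw0
      have h3 : (w * (g t + g t')).natDegree ≤ 1 := by
        rw [hmul2]
        compute_degree
      rw [natDegree_mul hw0 hsum.2, hsum.1] at h3
      have := hn t ht
      omega
    have hgt : g t = g t' := by
      rw [hw0, mul_zero] at hw
      exact sub_eq_zero.1 hw
    refine fam_inj R U ?_
    rw [hg2 t ht, hg2 t' ht', hgt]
  calc _ ≤ (Finset.univ : Finset (R → Bool)).card :=
        Finset.card_le_card_of_injOn _ (fun _ _ => Finset.mem_coe.2 (Finset.mem_univ _)) hinj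
    _ = 2 ^ R.card := by
      rw [Finset.card_univ, Fintype.card_fun, Fintype.card_bool, Fintype.card_coe]

end

end Run7.h876.EN
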